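import Pool.Agent.WK2.Defs
import Pool.Agent.WK.Stmts

/-!
# MP_7d2497_an, squad WK3: one criterion for all weights of regular growth on the half-line
-/

set_option autoImplicit false

namespace Pool.Agent.WK3

open MeasureTheory Filter Topology Complex
open Pool.Agent.H78E Pool.Agent.WK Pool.Agent.WK2

noncomputable section

/-- Quasi-concave on the half-line. -/
def QC (φ : ℝ → ℝ) : Prop :=
  ∃ C : ℝ, 0 < C ∧ ∀ s t : ℝ, 0 < s → s ≤ t → φ s ≤ C * φ t ∧ s * φ t ≤ C * (t * φ s)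

/-- At least linear growth. -/
def Lin (φ : ℝ → ℝ) : Prop := ∃ C : ℝ, ∀ t : ℝ, 0 ≤ t → t ≤ C * φ t

/-- Averages of functions with transform zero at a point are small. -/
def Dit (φ : ℝ → ℝ) : Prop :=
  ∀ (x : ℝ) (f : ℝ → ℂ), LP φ f → FT f (x : ℂ) = 0 → ∀ ε : ℝ, 0 < ε →
    ∃ L : ℝ, 0 < L ∧ LP φ (cv f (ka L x)) ∧ ∫ t : ℝ, φ t * ‖cv f (ka L x) t‖ < ε

/-- `K` is the spectrum of a simple function. -/
def IsSpec (φ : ℝ → ℝ) (K : Set ℝ) : Prop :=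
  K.Nonempty ∧ ∃ g : ℝ → ℂ, LInfPos φ g ∧ SimpleSpec φ g ∧ SpecPos φ g = rc K

/-- An isolated point. -/
def Iso (K : Set ℝ) (x : ℝ) : Prop := x ∈ K ∧ ∃ ρ : ℝ, 0 < ρ ∧ ∀ y ∈ K, y ≠ x → ρ ≤ |y - x|

/-- Functions with the values of the exponentials of the point `-s` of the negative half-line as
transform, smoothed. -/
def HasH (φ : ℝ → ℝ) (K : Set ℝ) (B : ℝ) : Prop :=
  ∀ s l : ℝ, 0 ≤ s → 1 ≤ l → ∃ h : ℝ → ℂ, LP φ h ∧ ∫ t : ℝ, φ t * ‖h t‖ ≤ B * φ (-s) ∧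
    ∀ x ∈ K, FT h (x : ℂ) = expR x (-s) * FT (q l) (x : ℂ)

end

end Pool.Agent.WK3
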