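import Pool.Agent.WK3.Stmts
import Pool.Agent.WK.Lew
import Pool.Agent.WK.Av

/-!
# MP_7d2497_an, squad WK3, row DIT (helper56): averages of functions with transform zero at a point
-/

set_option autoImplicit false

namespace Pool.Agent.WK3

open MeasureTheory Filter Topology Complex
open Pool.Agent.H78E Pool.Agent.WK Pool.Agent.WK2
open scoped ENNReal

noncomputable section

namespace Dit56

/-- the indicator of `[0, L]` -/
def ic (L t : ℝ) : ℝ := if 0 ≤ t ∧ t ≤ L then 1 else 0

/-- the difference of the indicator and its translate -/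
def Dl (L u t : ℝ) : ℝ := |ic L (t - u) - ic L t|

theorem Dl_nonneg (L u t : ℝ) : 0 ≤ Dl L u t := abs_nonneg _

theorem Dl_le_one (L u t : ℝ) : Dl L u t ≤ 1 := by
  unfold Dl ic
  split_ifs <;> norm_num

theorem Dl_zero {L u t : ℝ} (h : (0 ≤ t - u ∧ t - u ≤ L) ↔ (0 ≤ t ∧ t ≤ L)) : Dl L u t = 0 := by
  unfold Dl ic
  by_cases h1 : 0 ≤ t ∧ t ≤ L
  · rw [if_pos h1, if_pos (h.2 h1), sub_self, abs_zero]
  · rw [if_neg h1, if_neg (fun h2 => h1 (h.1 h2)), sub_self, abs_zero]

theorem meas_ic (L : ℝ) : Measurable (ic L) := by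
  unfold ic
  exact Measurable.ite (measurableSet_Icc (a := (0 : ℝ)) (b := L)) measurable_const
    measurable_const

/-- the kernel -/
def kn (φ : ℝ → ℝ) (L u t : ℝ) : ℝ≥0∞ := ENNReal.ofReal (φ t) * ENNReal.ofReal (1 / L * Dl L u t)

theorem meas_kn {φ : ℝ → ℝ} (hφ : Measurable φ) (L : ℝ) :
    Measurable fun z : ℝ × ℝ => kn φ L z.1 z.2 := by
  unfold kn Dl
  have h1 : Measurable fun z : ℝ × ℝ => ic L (z.2 - z.1) :=
    (meas_ic L).comp (measurable_snd.sub measurable_fst)
  have h2 : Measurable fun z : ℝ × ℝ => ic L z.2 := (meas_ic L).comp measurable_snd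
  exact (ENNReal.measurable_ofReal.comp (hφ.comp measurable_snd)).mul
    (ENNReal.measurable_ofReal.comp (((h1.sub h2).abs).const_mul _))

/-- its integral -/
def Nf (φ : ℝ → ℝ) (L u : ℝ) : ℝ≥0∞ := ∫⁻ t : ℝ, kn φ L u t

theorem meas_Nf {φ : ℝ → ℝ} (hφ : Measurable φ) (L : ℝ) : Measurable (Nf φ L) :=
  (meas_kn hφ L).lintegral_prod_right'

/-- integral of a function dominated by two steps -/
theorem lint_le {F : ℝ → ℝ≥0∞} {a b c d p q : ℝ}
    (hF : ∀ t, t ≠ 0 → F t ≤ (Set.Icc a b).indicator (fun _ => ENNReal.ofReal p) t +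
      (Set.Icc c d).indicator (fun _ => ENNReal.ofReal q) t) (hp : 0 ≤ p) (hq : 0 ≤ q) :
    ∫⁻ t, F t ≤ ENNReal.ofReal (p * (b - a)) + ENNReal.ofReal (q * (d - c)) := by
  have h0 : ∀ᵐ t : ℝ, t ≠ 0 := by
    rw [ae_iff]
    simp
  calc ∫⁻ t, F t ≤ ∫⁻ t, ((Set.Icc a b).indicator (fun _ => ENNReal.ofReal p) t +
        (Set.Icc c d).indicator (fun _ => ENNReal.ofReal q) t) := by
        apply lintegral_mono_ae
        filter_upwards [h0] with t ht
        exact hF t ht
    _ = ENNReal.ofReal (p * (b - a)) + ENNReal.ofReal (q * (d - c)) := by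
        rw [lintegral_add_left (measurable_const.indicator measurableSet_Icc),
          lintegral_indicator_const measurableSet_Icc, lintegral_indicator_const measurableSet_Icc,
          Real.volume_Icc, Real.volume_Icc, ENNReal.ofReal_mul hp, ENNReal.ofReal_mul hq]

section

variable {φ : ℝ → ℝ} {C : ℝ}

theorem bound1 (hφ : IsWeight φ) (hC : 0 < C)
    (h1 : ∀ s t : ℝ, 0 < s → s ≤ t → φ s ≤ C * φ t ∧ s * φ t ≤ C * (t * φ s))
    {L u : ℝ} (hu : 0 < u) (huL : u ≤ L) :
    Nf φ L u ≤ ENNReal.ofReal (C * φ u / L * (u - 0)) +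
      ENNReal.ofReal (2 * C * φ L / L * (L + u - L)) := by
  have hL : 0 < L := hu.trans_le huL
  have hpos : ∀ t, 0 < φ t := fun t => one_pos.trans_le (hφ.one_le t)
  apply lint_le _ (by have := hpos u; positivity)
    (by have := hpos L; positivity)
  intro t ht
  unfold kn
  by_cases hA : t ∈ Set.Icc 0 u
  · rw [Set.indicator_of_mem hA]
    refine le_trans ?_ le_self_add
    rw [← ENNReal.ofReal_mul (hpos t).le]
    apply ENNReal.ofReal_le_ofReal
    have h2 := (h1 t u (lt_of_le_of_ne hA.1 (Ne.symm ht)) hA.2).1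
    calc φ t * (1 / L * Dl L u t) ≤ φ t * (1 / L * 1) := by
          have := Dl_le_one L u t
          have := hpos t
          gcongr
      _ = φ t / L := by ring
      _ ≤ C * φ u / L := by gcongr
  by_cases hB : t ∈ Set.Icc L (L + u)
  · rw [Set.indicator_of_mem hB]
    refine le_trans ?_ le_add_self
    rw [← ENNReal.ofReal_mul (hpos t).le]
    apply ENNReal.ofReal_le_ofReal
    have h2 := (h1 L t hL hB.1).2
    have h3 : φ t ≤ 2 * C * φ L := by
      have h4 : C * (t * φ L) ≤ C * (2 * L * φ L) := by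
        have : t ≤ 2 * L := by linarith [hB.2]
        have := hpos L
        gcongr
      have h5 : L * φ t ≤ L * (2 * C * φ L) := by linarith
      exact le_of_mul_le_mul_left h5 hL
    calc φ t * (1 / L * Dl L u t) ≤ φ t * (1 / L * 1) := by
          have := Dl_le_one L u t
          have := hpos t
          gcongr
      _ = φ t / L := by ring
      _ ≤ 2 * C * φ L / L := by gcongr
  · have hz : Dl L u t = 0 := by
      apply Dl_zero
      rw [Set.mem_Icc, not_and_or, not_le, not_le] at hA hB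
      constructor
      · rintro ⟨h2, h3⟩
        refine ⟨by linarith, ?_⟩
        rcases hB with h4 | h4
        · exact h4.le
        · linarith
      · rintro ⟨h2, h3⟩
        rcases hA with h4 | h4
        · linarith
        · exact ⟨by linarith, by linarith⟩
    rw [hz, mul_zero, ENNReal.ofReal_zero, mul_zero]
    exact zero_le

theorem bound2 (hφ : IsWeight φ) (hC : 0 < C)
    (h1 : ∀ s t : ℝ, 0 < s → s ≤ t → φ s ≤ C * φ t ∧ s * φ t ≤ C * (t * φ s))
    {L u : ℝ} (hL : 0 < L) (huL : L < u) :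
    Nf φ L u ≤ ENNReal.ofReal (C * φ u / L * (L - 0)) +
      ENNReal.ofReal (2 * C * φ u / L * (u + L - u)) := by
  have hu : 0 < u := hL.trans huL
  have hpos : ∀ t, 0 < φ t := fun t => one_pos.trans_le (hφ.one_le t)
  apply lint_le _ (by have := hpos u; positivity)
    (by have := hpos u; positivity)
  intro t ht
  unfold kn
  by_cases hA : t ∈ Set.Icc 0 L
  · rw [Set.indicator_of_mem hA]
    refine le_trans ?_ le_self_add
    rw [← ENNReal.ofReal_mul (hpos t).le]
    apply ENNReal.ofReal_le_ofReal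
    have h2 := (h1 t u (lt_of_le_of_ne hA.1 (Ne.symm ht)) (hA.2.trans huL.le)).1
    calc φ t * (1 / L * Dl L u t) ≤ φ t * (1 / L * 1) := by
          have := Dl_le_one L u t
          have := hpos t
          gcongr
      _ = φ t / L := by ring
      _ ≤ C * φ u / L := by gcongr
  by_cases hB : t ∈ Set.Icc u (u + L)
  · rw [Set.indicator_of_mem hB]
    refine le_trans ?_ le_add_self
    rw [← ENNReal.ofReal_mul (hpos t).le]
    apply ENNReal.ofReal_le_ofReal
    have h2 := (h1 u t hu hB.1).2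
    have h3 : φ t ≤ 2 * C * φ u := by
      have h4 : C * (t * φ u) ≤ C * (2 * u * φ u) := by
        have : t ≤ 2 * u := by linarith [hB.2]
        have := hpos u
        gcongr
      have h5 : u * φ t ≤ u * (2 * C * φ u) := by linarith
      exact le_of_mul_le_mul_left h5 hu
    calc φ t * (1 / L * Dl L u t) ≤ φ t * (1 / L * 1) := by
          have := Dl_le_one L u t
          have := hpos t
          gcongr
      _ = φ t / L := by ring
      _ ≤ 2 * C * φ u / L := by gcongr
  · have hz : Dl L u t = 0 := by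
      apply Dl_zero
      constructor
      · rintro ⟨h2, h3⟩
        exact absurd ⟨by linarith, by linarith⟩ hB
      · intro h2
        exact absurd h2 hA
    rw [hz, mul_zero, ENNReal.ofReal_zero, mul_zero]
    exact zero_le

theorem bound3 (hφ : IsWeight φ) (hC : 0 < C)
    (h1 : ∀ s t : ℝ, 0 < s → s ≤ t → φ s ≤ C * φ t ∧ s * φ t ≤ C * (t * φ s))
    {L u : ℝ} (hL : 0 < L) (hu : 0 < u) : Nf φ L u ≤ ENNReal.ofReal ((3 * C + 2 * C ^ 2) * φ u) := by
  have hpos : ∀ t, 0 < φ t := fun t => one_pos.trans_le (hφ.one_le t)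
  have hpu := hpos u
  have hpL := hpos L
  rcases le_or_gt u L with h | h
  · refine (bound1 hφ hC h1 hu h).trans ?_
    rw [← ENNReal.ofReal_add (by rw [sub_zero]; positivity)
      (by rw [add_sub_cancel_left]; positivity)]
    apply ENNReal.ofReal_le_ofReal
    have e1 : C * φ u / L * (u - 0) ≤ C * φ u := by
      rw [sub_zero, div_mul_eq_mul_div, div_le_iff₀ hL]
      gcongr
    have e2 : 2 * C * φ L / L * (L + u - L) ≤ 2 * C ^ 2 * φ u := by
      rw [add_sub_cancel_left, div_mul_eq_mul_div, div_le_iff₀ hL]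
      have h2 := (h1 u L hu h).2
      have h3 : 2 * C * (u * φ L) ≤ 2 * C * (C * (L * φ u)) :=
        mul_le_mul_of_nonneg_left h2 (by positivity)
      linarith
    have h3 : 0 ≤ C * φ u := by positivity
    linarith
  · refine (bound2 hφ hC h1 hL h).trans ?_
    rw [← ENNReal.ofReal_add (by rw [sub_zero]; positivity)
      (by rw [add_sub_cancel_left]; positivity)]
    apply ENNReal.ofReal_le_ofReal
    have e1 : C * φ u / L * (L - 0) = C * φ u := by
      rw [sub_zero]
      field_simp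
    have e2 : 2 * C * φ u / L * (u + L - u) = 2 * C * φ u := by
      rw [add_sub_cancel_left]
      field_simp
    rw [e1, e2]
    have h3 : 0 ≤ C ^ 2 * φ u := by positivity
    linarith

/-- sublinear growth -/
theorem sublin (hφ : IsWeight φ) (hC : 0 < C)
    (h1 : ∀ s t : ℝ, 0 < s → s ≤ t → φ s ≤ C * φ t ∧ s * φ t ≤ C * (t * φ s))
    (hn : ¬ Lin φ) : Tendsto (fun n : ℕ => φ ((n : ℝ) + 1) / ((n : ℝ) + 1)) atTop (𝓝 0) := by
  have hpos : ∀ t, 0 < φ t := fun t => one_pos.trans_le (hφ.one_le t)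
  rw [Metric.tendsto_atTop]
  intro δ hδ
  obtain ⟨t0, ht0, ht1⟩ : ∃ t0 : ℝ, 0 ≤ t0 ∧ 2 * C / δ * φ t0 < t0 := by
    by_contra hcon
    push Not at hcon
    exact hn ⟨2 * C / δ, fun t ht => hcon t ht⟩
  have ht2 : 0 < t0 := by
    have := hpos t0
    have h2 : 0 < 2 * C / δ * φ t0 := by positivity
    linarith
  obtain ⟨m, hm⟩ := exists_nat_ge t0
  refine ⟨m, fun n hmn => ?_⟩
  have hn1 : (0 : ℝ) < (n : ℝ) + 1 := by positivity
  have hge : t0 ≤ (n : ℝ) + 1 := by
    have : (m : ℝ) ≤ n := by exact_mod_cast hmn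
    linarith
  have h2 := (h1 t0 _ ht2 hge).2
  have h3 := hpos ((n : ℝ) + 1)
  rw [Real.dist_eq, sub_zero, abs_of_pos (by positivity), div_lt_iff₀ hn1]
  have h4 : φ t0 < δ / (2 * C) * t0 := by
    have h5 : δ / (2 * C) * (2 * C / δ * φ t0) < δ / (2 * C) * t0 :=
      mul_lt_mul_of_pos_left ht1 (by positivity)
    have h6 : δ / (2 * C) * (2 * C / δ * φ t0) = φ t0 := by field_simp
    linarith
  have h7 : t0 * φ ((n : ℝ) + 1) < t0 * (δ * ((n : ℝ) + 1)) := by
    calc t0 * φ ((n : ℝ) + 1) ≤ C * (((n : ℝ) + 1) * φ t0) := h2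
      _ < C * (((n : ℝ) + 1) * (δ / (2 * C) * t0)) := by gcongr
      _ = δ / 2 * t0 * ((n : ℝ) + 1) := by field_simp
      _ ≤ t0 * (δ * ((n : ℝ) + 1)) := by
          have : 0 ≤ t0 * δ * ((n : ℝ) + 1) := by positivity
          linarith
  exact lt_of_mul_lt_mul_left h7 ht2.le

theorem Nf_lim (hφ : IsWeight φ) (hC : 0 < C)
    (h1 : ∀ s t : ℝ, 0 < s → s ≤ t → φ s ≤ C * φ t ∧ s * φ t ≤ C * (t * φ s))
    (hn : ¬ Lin φ) {u : ℝ} (hu : 0 < u) :
    Tendsto (fun n : ℕ => Nf φ ((n : ℝ) + 1) u) atTop (𝓝 0) := by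
  have hov := sublin hφ hC h1 hn
  have hnt : Tendsto (fun n : ℕ => (n : ℝ) + 1) atTop atTop :=
    tendsto_atTop_add_const_right _ 1 tendsto_natCast_atTop_atTop
  have e1 : Tendsto (fun n : ℕ => ENNReal.ofReal (C * φ u / ((n : ℝ) + 1) * (u - 0)) +
      ENNReal.ofReal (2 * C * φ ((n : ℝ) + 1) / ((n : ℝ) + 1) * ((n : ℝ) + 1 + u - ((n : ℝ) + 1))))
      atTop (𝓝 0) := by
    have a1 : Tendsto (fun n : ℕ => C * φ u / ((n : ℝ) + 1) * (u - 0)) atTop (𝓝 0) := by
      have := (tendsto_const_nhds (x := C * φ u)).div_atTop hnt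
      have := this.mul_const (u - 0)
      rwa [zero_mul] at this
    have a2 : Tendsto (fun n : ℕ => 2 * C * φ ((n : ℝ) + 1) / ((n : ℝ) + 1) *
        ((n : ℝ) + 1 + u - ((n : ℝ) + 1))) atTop (𝓝 0) := by
      have := hov.const_mul (2 * C * u)
      rw [mul_zero] at this
      refine this.congr fun n => ?_
      rw [add_sub_cancel_left]
      ring
    have b1 := (ENNReal.continuous_ofReal.tendsto 0).comp a1
    have b2 := (ENNReal.continuous_ofReal.tendsto 0).comp a2
    have b3 := b1.add b2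
    rw [ENNReal.ofReal_zero, add_zero] at b3
    exact b3
  refine tendsto_of_tendsto_of_tendsto_of_le_of_le' tendsto_const_nhds e1
    (Eventually.of_forall fun n => zero_le) ?_
  filter_upwards [hnt.eventually_ge_atTop u] with n hn2
  exact bound1 hφ hC h1 hu hn2

end

/-- the convolution with the modulated average, when the transform vanishes -/
theorem cv_le {f : ℝ → ℂ} (hf : Integrable f) {x L : ℝ} (hL : 0 < L) (hx : FT f (x : ℂ) = 0)
    (t : ℝ) : ENNReal.ofReal ‖cv f (ka L x) t‖ ≤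
      ∫⁻ u : ℝ, ENNReal.ofReal ‖f u‖ * ENNReal.ofReal (1 / L * Dl L u t) := by
  have e1 : cv f (ka L x) t = ∫ u : ℝ, f u * ka L x (t - u) := by
    unfold cv
    rw [← integral_sub_left_eq_self (fun s => f (t - s) * ka L x s) volume t]
    simp only [sub_sub_cancel]
  have hkm : ∀ s, ‖ka L x s‖ ≤ 1 / L := by
    intro s
    rw [H60V.ka_norm hL]
    unfold Set.indicator
    split_ifs
    · exact le_rfl
    · positivity
  have i1 : Integrable fun u : ℝ => f u * ka L x (t - u) := by
    refine (hf.norm.mul_const (1 / L)).mono' (hf.1.mul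
      ((H60V.ka_meas L x).comp (measurable_const.sub measurable_id)).aestronglyMeasurable)
      (Eventually.of_forall fun u => ?_)
    rw [norm_mul]
    exact mul_le_mul_of_nonneg_left (hkm _) (norm_nonneg _)
  have i2 : Integrable fun u : ℝ => f u * Complex.exp (-(Complex.I * (u : ℂ) * (x : ℂ))) := by
    refine hf.norm.mono' (hf.1.mul (by fun_prop)) (Eventually.of_forall fun u => ?_)
    rw [norm_mul, Complex.norm_exp]
    have : (-(Complex.I * (u : ℂ) * (x : ℂ))).re = 0 := by simp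
    rw [this, Real.exp_zero, mul_one]
  have e2 : cv f (ka L x) t = ∫ u : ℝ, (f u * ka L x (t - u) -
      f u * Complex.exp (-(Complex.I * (u : ℂ) * (x : ℂ))) * ka L x t) := by
    rw [integral_sub i1 (i2.mul_const _), integral_mul_const, ← e1]
    have h3 : ∫ u : ℝ, f u * Complex.exp (-(Complex.I * (u : ℂ) * (x : ℂ))) = 0 := hx
    rw [h3, zero_mul, sub_zero]
  rw [e2, ofReal_norm_eq_enorm]
  refine (enorm_integral_le_lintegral_enorm _).trans (lintegral_mono fun u => ?_)
  rw [← ENNReal.ofReal_mul (norm_nonneg _), ← ofReal_norm_eq_enorm]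
  apply ENNReal.ofReal_le_ofReal
  have e3 : ∀ s : ℝ, ka L x s = ((1 / L * ic L s : ℝ) : ℂ) * Complex.exp (Complex.I * x * s) := by
    intro s
    unfold ka ic
    split_ifs
    · rw [mul_one]
    · simp
  have e4 : f u * ka L x (t - u) - f u * Complex.exp (-(Complex.I * (u : ℂ) * (x : ℂ))) * ka L x t =
      f u * (((1 / L * (ic L (t - u) - ic L t) : ℝ) : ℂ) *
        Complex.exp (Complex.I * x * ((t - u : ℝ) : ℂ))) := by
    rw [e3, e3]
    have h4 : Complex.exp (-(Complex.I * (u : ℂ) * (x : ℂ))) * Complex.exp (Complex.I * x * t) =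
        Complex.exp (Complex.I * x * ((t - u : ℝ) : ℂ)) := by
      rw [← Complex.exp_add]
      congr 1
      push_cast
      ring
    push_cast at h4 ⊢
    linear_combination (-(f u * (1 / L * ic L t))) * h4
  rw [e4, norm_mul, norm_mul, Complex.norm_real, Complex.norm_exp]
  have h5 : (Complex.I * x * ((t - u : ℝ) : ℂ)).re = 0 := by simp
  rw [h5, Real.exp_zero, mul_one, Real.norm_eq_abs, abs_mul, abs_of_pos (by positivity : 0 < 1 / L)]
  exact le_rfl

end Dit56

open Dit56

theorem dit (hcnv : CnvStmt) : DitStmt := by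
  intro φ hφ hqc hnl x f hf hfx ε hε
  obtain ⟨C, hC, h1⟩ := hqc
  have hpos : ∀ t, 0 < φ t := fun t => one_pos.trans_le (hφ.one_le t)
  have hfi : Integrable f := by
    refine hf.1.2.mono' hf.1.1 (Eventually.of_forall fun t => ?_)
    calc ‖f t‖ = 1 * ‖f t‖ := (one_mul _).symm
      _ ≤ φ t * ‖f t‖ := mul_le_mul_of_nonneg_right (hφ.one_le t) (norm_nonneg _)
  -- the limit of the double integral
  have hlim : Tendsto (fun n : ℕ => ∫⁻ u : ℝ, ENNReal.ofReal ‖f u‖ * Nf φ ((n : ℝ) + 1) u) atTop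
      (𝓝 0) := by
    have h2 := tendsto_lintegral_of_dominated_convergence'
      (μ := (volume : Measure ℝ))
      (F := fun (n : ℕ) (u : ℝ) => ENNReal.ofReal ‖f u‖ * Nf φ ((n : ℝ) + 1) u)
      (f := fun _ => 0)
      (fun u => ENNReal.ofReal ((3 * C + 2 * C ^ 2) * (φ u * ‖f u‖))) ?_ ?_ ?_ ?_
    · simpa using h2
    · intro n
      exact (hfi.1.norm.aemeasurable.ennreal_ofReal).mul (meas_Nf hφ.meas _).aemeasurable
    · intro n
      have h0 : ∀ᵐ t : ℝ, t ≠ 0 := by
        rw [ae_iff]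
        simp
      filter_upwards [h0] with u hu
      rcases lt_or_gt_of_ne hu with h | h
      · rw [hf.2 u h]
        simp
      · have h3 := bound3 hφ hC h1 (L := (n : ℝ) + 1) (by positivity) h
        have e1 : (3 * C + 2 * C ^ 2) * (φ u * ‖f u‖) = ‖f u‖ * ((3 * C + 2 * C ^ 2) * φ u) := by
          ring
        rw [e1, ENNReal.ofReal_mul (norm_nonneg _)]
        exact mul_le_mul_right h3 _
    · have h3 : Integrable fun u => (3 * C + 2 * C ^ 2) * (φ u * ‖f u‖) := hf.1.2.const_mul _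
      exact h3.lintegral_lt_top.ne
    · have h0 : ∀ᵐ t : ℝ, t ≠ 0 := by
        rw [ae_iff]
        simp
      filter_upwards [h0] with u hu
      rcases lt_or_gt_of_ne hu with h | h
      · rw [hf.2 u h]
        simp
      · have h3 := ENNReal.Tendsto.const_mul (a := ENNReal.ofReal ‖f u‖)
          (Nf_lim hφ hC h1 hnl h) (Or.inr ENNReal.ofReal_ne_top)
        rwa [mul_zero] at h3
  have hev := (tendsto_order.1 hlim).2 (ENNReal.ofReal ε) (by simpa using hε)
  obtain ⟨n, hn⟩ := hev.exists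
  have hL : (0 : ℝ) < (n : ℝ) + 1 := by positivity
  obtain ⟨S, -, hS⟩ := (lew φ hφ).2.1 ((n : ℝ) + 1)
  obtain ⟨hka, -⟩ := H60V.ka_LP hφ hL x (S := S)
    (fun t h0 h2 => hS t (by rw [abs_of_nonneg h0]; exact h2))
  obtain ⟨hcv, -, -⟩ := hcnv φ hφ f (ka ((n : ℝ) + 1) x) hf hka
  refine ⟨(n : ℝ) + 1, hL, hcv, ?_⟩
  have hnn : ∀ t, 0 ≤ φ t * ‖cv f (ka ((n : ℝ) + 1) x) t‖ := fun t =>
    mul_nonneg (hpos t).le (norm_nonneg _)
  have hle : ENNReal.ofReal (∫ t : ℝ, φ t * ‖cv f (ka ((n : ℝ) + 1) x) t‖) ≤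
      ∫⁻ u : ℝ, ENNReal.ofReal ‖f u‖ * Nf φ ((n : ℝ) + 1) u := by
    rw [ofReal_integral_eq_lintegral_ofReal hcv.1.2 (Eventually.of_forall hnn)]
    calc ∫⁻ t : ℝ, ENNReal.ofReal (φ t * ‖cv f (ka ((n : ℝ) + 1) x) t‖)
        ≤ ∫⁻ t : ℝ, ∫⁻ u : ℝ, ENNReal.ofReal ‖f u‖ * kn φ ((n : ℝ) + 1) u t := by
          refine lintegral_mono fun t => ?_
          rw [ENNReal.ofReal_mul (hpos t).le]
          refine (mul_le_mul_right (cv_le hfi hL hfx t) _).trans ?_
          rw [← lintegral_const_mul' _ _ ENNReal.ofReal_ne_top]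
          refine lintegral_mono fun u => le_of_eq ?_
          unfold kn
          ring
      _ = ∫⁻ u : ℝ, ∫⁻ t : ℝ, ENNReal.ofReal ‖f u‖ * kn φ ((n : ℝ) + 1) u t := by
          apply lintegral_lintegral_swap
          have h3 : AEMeasurable (fun z : ℝ × ℝ => ENNReal.ofReal ‖f z.2‖)
              ((volume : Measure ℝ).prod volume) :=
            (hfi.1.comp_snd.norm.aemeasurable).ennreal_ofReal
          exact h3.mul ((meas_kn hφ.meas _).comp measurable_swap).aemeasurable
      _ = ∫⁻ u : ℝ, ENNReal.ofReal ‖f u‖ * Nf φ ((n : ℝ) + 1) u := by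
          refine lintegral_congr fun u => ?_
          rw [lintegral_const_mul' _ _ ENNReal.ofReal_ne_top]
          rfl
  have h3 := hle.trans_lt hn
  exact (ENNReal.ofReal_lt_ofReal_iff hε).1 h3

end

end Pool.Agent.WK3
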