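import Pool.Agent.WK3.Stmts
import Pool.Agent.WK.Ext

/-!
# MP_7d2497_an, squad WK3: row EXH
-/

set_option autoImplicit false

namespace Pool.Agent.WK3

open MeasureTheory Filter Topology Complex
open Pool.Agent.H78E Pool.Agent.WK Pool.Agent.WK2

noncomputable section

namespace H7E

variable {φ : ℝ → ℝ}

theorem mk_shift_zero (hφ : IsWeight φ) {K : Set ℝ} {g w : ℝ → ℂ} (hg : MK φ K g)
    (hw : JK φ K w) {a : ℝ} (ha : 0 ≤ a) : ∫ t : ℝ, w t * g (t + a) = 0 := by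
  have h1 : JK φ K (fun t => w (t - a)) :=
    ⟨H7.LP_shift hφ hw.1 ha, fun x hx => by rw [H7.FT_shift, hw.2 x hx, mul_zero]⟩
  have h2 : ∫ t : ℝ, w t * g (t + a) = ∫ t : ℝ, w (t - a) * g t :=
    Pool.Agent.Helper7_WK.cr_shift g w a
  rw [h2]
  exact hg.2 _ h1

/-- Consistency of the pieces of the extension. -/
theorem consist (hφ : IsWeight φ) {K : Set ℝ} {g h h' Q : ℝ → ℂ} (hg : MK φ K g)
    (hh : LP φ h) (hh' : LP φ h') {k k' t : ℝ} (hk : k ≤ k') (ht : 0 ≤ t + k)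
    (e : ∀ x ∈ K, FT h (x : ℂ) = expR x (-k) * Q x)
    (e' : ∀ x ∈ K, FT h' (x : ℂ) = expR x (-k') * Q x) :
    ∫ u : ℝ, h u * g (u + (t + k)) = ∫ u : ℝ, h' u * g (u + (t + k')) := by
  have hd : 0 ≤ k' - k := by linarith
  have hs : LP φ (fun u => h' (u - (k' - k))) := H7.LP_shift hφ hh' hd
  have hw : JK φ K (fun u => h u - h' (u - (k' - k))) := by
    refine ⟨H7.LP_sub hφ hh hs, fun x hx => ?_⟩
    rw [H7.FT_sub hφ hh.1 hs.1, H7.FT_shift, e x hx, e' x hx, ← mul_assoc, ← H7.expR_add]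
    have : -k' + (k' - k) = -k := by ring
    rw [this, sub_self]
  have h0 := mk_shift_zero hφ hg hw ht
  have hgs : LInf φ (fun u => g (u + (t + k))) := LInf.shift72 hφ hg.1.1 (t + k)
  have e1 : ∀ u : ℝ, (h u - h' (u - (k' - k))) * g (u + (t + k)) =
      h u * g (u + (t + k)) - h' (u - (k' - k)) * g (u + (t + k)) := fun u => by ring
  simp only [e1] at h0
  rw [integral_sub (L1.mulInt72 hh.1 hgs) (L1.mulInt72 hs.1 hgs), sub_eq_zero] at h0
  rw [h0]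
  have h2 : ∫ u : ℝ, h' u * (fun v => g (v + (t + k))) (u + (k' - k)) =
      ∫ u : ℝ, h' (u - (k' - k)) * (fun v => g (v + (t + k))) u :=
    Pool.Agent.Helper7_WK.cr_shift (fun v => g (v + (t + k))) h' (k' - k)
  rw [← h2]
  congr 1
  funext u
  congr 2
  ring_nf

end H7E

theorem exh (hQai : QaiStmt) (hWlm : WlmStmt) (hCon : ConStmt) (hFub : FubStmt) : ExhStmt := by
  intro φ hφ K B hH g hg
  have pos := Pool.Agent.Helper7_WK.weight_pos hφ
  obtain ⟨S, hS1, hS⟩ := Pool.Agent.Helper7_WK.weight_loc hφ 1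
  obtain ⟨Cg, hCg⟩ := hg.1.1.2
  have hCg0 : 0 ≤ Cg := H7.ae_exists_pos hφ hCg
  have hB0 : 0 ≤ B := by
    obtain ⟨h, _, h2, _⟩ := hH 0 1 le_rfl le_rfl
    have h3 : 0 ≤ ∫ t : ℝ, φ t * ‖h t‖ :=
      integral_nonneg fun t => mul_nonneg (pos t).le (norm_nonneg _)
    by_contra hcon
    push Not at hcon
    have := mul_neg_of_neg_of_pos hcon (pos (-0))
    linarith
  -- the extension of the smoothed function
  have key : ∀ l : ℝ, 1 ≤ l → ∃ G : ℝ → ℂ, XK φ K G ∧ (∀ t : ℝ, ‖G t‖ ≤ Cg * B * (S * S) * φ t) ∧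
      ∀ t : ℝ, 0 ≤ t → G t = ∫ u : ℝ, q l u * g (u + t) := by
    intro l hl
    have hqLP : LP φ (q l) := by
      obtain ⟨D, hD⟩ := (hQai φ hφ).1
      exact (hD l hl).1
    have hex : ∀ k : ℕ, ∃ h : ℝ → ℂ, LP φ h ∧ ∫ t : ℝ, φ t * ‖h t‖ ≤ B * φ (-(k : ℝ)) ∧
        ∀ x ∈ K, FT h (x : ℂ) = expR x (-(k : ℝ)) * FT (q l) (x : ℂ) :=
      fun k => hH k l (Nat.cast_nonneg k) hl
    choose h hLP hnorm hFT using hex
    set G : ℝ → ℂ := fun t => ∫ u : ℝ, h ⌈-t⌉₊ u * g (u + (t + (⌈-t⌉₊ : ℕ))) with hG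
    have hceil : ∀ t : ℝ, 0 ≤ t + (⌈-t⌉₊ : ℕ) := by
      intro t
      have := Nat.le_ceil (-t)
      linarith
    have hGk : ∀ (k : ℕ) (t : ℝ), 0 ≤ t + k → G t = ∫ u : ℝ, h k u * g (u + (t + k)) := by
      intro k t ht
      have h1 : ⌈-t⌉₊ ≤ k := Nat.ceil_le.mpr (by linarith)
      exact H7E.consist hφ hg (hLP _) (hLP k) (by exact_mod_cast h1) (hceil t)
        (Q := fun x => FT (q l) (x : ℂ)) (hFT _) (hFT k)
    have hGq : ∀ t : ℝ, 0 ≤ t → G t = ∫ u : ℝ, q l u * g (u + t) := by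
      intro t ht
      have h1 : ∫ u : ℝ, q l u * g (u + (t + 0)) = ∫ u : ℝ, h ⌈-t⌉₊ u *
          g (u + (t + (⌈-t⌉₊ : ℕ))) := by
        refine H7E.consist hφ hg hqLP (hLP _) (Nat.cast_nonneg _) (by linarith)
          (Q := fun x => FT (q l) (x : ℂ)) (fun x _ => ?_) (hFT _)
        have : expR x (-0) = 1 := by
          unfold expR
          simp
        rw [this, one_mul]
      rw [add_zero] at h1
      exact h1.symm
    have hcont : Continuous G := by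
      rw [continuous_iff_continuousAt]
      intro t0
      set k : ℕ := ⌈|t0|⌉₊ + 1 with hk
      have hk1 : |t0| + 1 ≤ (k : ℝ) := by
        rw [hk]
        push_cast
        have := Nat.le_ceil |t0|
        linarith
      have h1 : Continuous fun t : ℝ => ∫ u : ℝ, h k u * g (u + (t + k)) := by
        have h2 := (hCon φ hφ (h k) g (hLP k).1 hg.1.1).1
        exact h2.comp (continuous_id.add continuous_const)
      refine h1.continuousAt.congr ?_
      have h3 : Set.Ioi (-(k : ℝ)) ∈ 𝓝 t0 := by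
        apply Ioi_mem_nhds
        have := neg_abs_le t0
        linarith
      filter_upwards [h3] with t ht
      rw [Set.mem_Ioi] at ht
      exact (hGk k t (by linarith)).symm
    have hbd : ∀ t : ℝ, ‖G t‖ ≤ Cg * B * (S * S) * φ t := by
      intro t
      have h1 := (hCon φ hφ (h ⌈-t⌉₊) g (hLP _).1 hg.1.1).2 Cg hCg (t + (⌈-t⌉₊ : ℕ))
      have h2 : Cg * (∫ u : ℝ, φ u * ‖h ⌈-t⌉₊ u‖) * φ (t + (⌈-t⌉₊ : ℕ)) ≤
          Cg * (B * φ (-((⌈-t⌉₊ : ℕ) : ℝ))) * φ (t + (⌈-t⌉₊ : ℕ)) := by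
        apply mul_le_mul_of_nonneg_right _ (pos _).le
        exact mul_le_mul_of_nonneg_left (hnorm _) hCg0
      have h3 : φ (-((⌈-t⌉₊ : ℕ) : ℝ)) * φ (t + (⌈-t⌉₊ : ℕ)) ≤ S * S * φ t := by
        rcases le_or_gt 0 t with ht | ht
        · have h4 : ⌈-t⌉₊ = 0 := Nat.ceil_eq_zero.mpr (by linarith)
          rw [h4]
          simp only [Nat.cast_zero, neg_zero, add_zero]
          have h5 : φ 0 ≤ S := hS 0 (by simp)
          have h6 := (pos t).le
          calc φ 0 * φ t ≤ S * φ t := mul_le_mul_of_nonneg_right h5 h6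
            _ ≤ S * S * φ t := by
              apply mul_le_mul_of_nonneg_right _ h6
              nlinarith
        · have h4 : ((⌈-t⌉₊ : ℕ) : ℝ) < -t + 1 := Nat.ceil_lt_add_one (by linarith)
          have h5 := hceil t
          have h6 : |t + (⌈-t⌉₊ : ℕ)| ≤ 1 := by
            rw [abs_of_nonneg h5]
            linarith
          have h7 : φ (t + (⌈-t⌉₊ : ℕ)) ≤ S := hS _ h6
          have h8 : φ (-(t + (⌈-t⌉₊ : ℕ))) ≤ S := hS _ (by rw [abs_neg]; exact h6)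
          have h9 : φ (-((⌈-t⌉₊ : ℕ) : ℝ)) ≤ φ t * φ (-(t + (⌈-t⌉₊ : ℕ))) := by
            have := hφ.submul t (-(t + (⌈-t⌉₊ : ℕ)))
            have e : t + -(t + (⌈-t⌉₊ : ℕ)) = -((⌈-t⌉₊ : ℕ) : ℝ) := by ring
            rwa [e] at this
          calc φ (-((⌈-t⌉₊ : ℕ) : ℝ)) * φ (t + (⌈-t⌉₊ : ℕ)) ≤
              (φ t * φ (-(t + (⌈-t⌉₊ : ℕ)))) * S :=
                mul_le_mul h9 h7 (pos _).le (mul_nonneg (pos _).le (pos _).le)
            _ ≤ (φ t * S) * S := by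
                apply mul_le_mul_of_nonneg_right _ (by linarith)
                exact mul_le_mul_of_nonneg_left h8 (pos _).le
            _ = S * S * φ t := by ring
      calc ‖G t‖ ≤ Cg * (∫ u : ℝ, φ u * ‖h ⌈-t⌉₊ u‖) * φ (t + (⌈-t⌉₊ : ℕ)) := h1
        _ ≤ Cg * (B * φ (-((⌈-t⌉₊ : ℕ) : ℝ))) * φ (t + (⌈-t⌉₊ : ℕ)) := h2
        _ = Cg * B * (φ (-((⌈-t⌉₊ : ℕ) : ℝ)) * φ (t + (⌈-t⌉₊ : ℕ))) := by ring
        _ ≤ Cg * B * (S * S * φ t) := mul_le_mul_of_nonneg_left h3 (mul_nonneg hCg0 hB0)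
        _ = _ := by ring
    refine ⟨G, ⟨⟨hcont.aestronglyMeasurable, Cg * B * (S * S), Eventually.of_forall hbd⟩,
      fun f hf a => ?_⟩, hbd, hGq⟩
    set k : ℕ := ⌈-a⌉₊ with hk
    have ha : 0 ≤ a + k := hceil a
    have e1 : ∀ t : ℝ, f t * G (t + a) = f t * ∫ u : ℝ, h k u * g (u + (t + (a + k))) := by
      intro t
      rcases lt_or_ge t 0 with ht | ht
      · rw [hf.1.2 t ht, zero_mul, zero_mul]
      · rw [hGk k (t + a) (by linarith)]
        congr 2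
        funext u
        congr 2
        ring
    simp only [e1]
    rw [hFub φ hφ f (h k) g hf.1.1 (hLP k).1 hg.1.1 (a + k)]
    have e2 : ∀ s : ℝ, h k s * ∫ t : ℝ, f t * g (t + (s + (a + k))) = 0 := by
      intro s
      rcases lt_or_ge s 0 with hs | hs
      · rw [(hLP k).2 s hs, zero_mul]
      · rw [H7E.mk_shift_zero hφ hg hf (by linarith), mul_zero]
    simp only [e2, integral_zero]
  -- the limit
  have hex : ∀ n : ℕ, ∃ G : ℝ → ℂ, XK φ K G ∧ (∀ t : ℝ, ‖G t‖ ≤ Cg * B * (S * S) * φ t) ∧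
      ∀ t : ℝ, 0 ≤ t → G t = ∫ u : ℝ, q ((n : ℝ) + 1) u * g (u + t) :=
    fun n => key ((n : ℝ) + 1) (by have := Nat.cast_nonneg (α := ℝ) n; linarith)
  choose P hPX hPb hPq using hex
  obtain ⟨G, hG, hGl⟩ := hWlm φ hφ (Ultrafilter.of atTop) P (Cg * B * (S * S))
    (fun n => (hPX n).1.1) hPb
  have hUle : ((Ultrafilter.of atTop : Ultrafilter ℕ) : Filter ℕ) ≤ atTop := Ultrafilter.of_le atTop
  refine ⟨G, ⟨hG, fun f' hf' s => ?_⟩, ?_⟩
  · have h1 : L1 φ (fun t => f' (t - s)) := L1.shift72 hφ hf'.1.1 s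
    have h2 := hGl _ h1
    have h3 : ∀ n : ℕ, ∫ t : ℝ, f' (t - s) * P n t = 0 := by
      intro n
      rw [← Pool.Agent.Helper7_WK.cr_shift (P n) f' s]
      exact (hPX n).2 f' hf' s
    simp_rw [h3] at h2
    have h4 := tendsto_nhds_unique h2 tendsto_const_nhds
    have h5 : ∫ t : ℝ, f' t * G (t + s) = ∫ t : ℝ, f' (t - s) * G t :=
      Pool.Agent.Helper7_WK.cr_shift G f' s
    rw [h5, h4]
  · apply H7.eq_of_pairing hφ hg.1.1 hG
    intro w hw
    have h1 := hGl w hw.1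
    have hψ := hCon φ hφ w g hw.1 hg.1.1
    have h2 := (hQai φ hφ).2 (fun s => ∫ t : ℝ, w t * g (t + s)) hψ.1
      ⟨Cg * ∫ t : ℝ, φ t * ‖w t‖, fun t => hψ.2 Cg hCg t⟩
    have hqL : ∀ n : ℕ, LP φ (q ((n : ℝ) + 1)) := by
      intro n
      obtain ⟨D, hD⟩ := (hQai φ hφ).1
      exact (hD _ (by have := Nat.cast_nonneg (α := ℝ) n; linarith)).1
    have h3 : ∀ n : ℕ, ∫ t : ℝ, w t * P n t =
        ∫ s : ℝ, q ((n : ℝ) + 1) s * ∫ t : ℝ, w t * g (t + s) := by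
      intro n
      have h4 := hFub φ hφ w (q ((n : ℝ) + 1)) g hw.1 (hqL n).1 hg.1.1 0
      simp only [add_zero] at h4
      rw [← h4]
      congr 1
      ext1 t
      by_cases ht : 0 ≤ t
      · rw [hPq n t ht]
      · rw [hw.2 t (not_le.mp ht), zero_mul, zero_mul]
    have h5 : Tendsto (fun n => ∫ t : ℝ, w t * P n t) (Ultrafilter.of atTop : Ultrafilter ℕ)
        (𝓝 (∫ t : ℝ, w t * g t)) := by
      simp_rw [h3]
      have h6 := h2.mono_left hUle
      simp only [add_zero] at h6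
      exact h6
    exact tendsto_nhds_unique h1 h5

end

end Pool.Agent.WK3
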