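import Pool.Agent.WK3.Stmts
import Pool.Agent.WK2.Dua
import Pool.Agent.WK2.Sep
import Pool.Agent.WK2.Kit

/-!
# MP_7d2497_an, squad WK3: row INT, finite interpolation
-/

set_option autoImplicit false

namespace Pool.Agent.WK3

open MeasureTheory Filter Topology Complex
open Pool.Agent.H78E Pool.Agent.WK Pool.Agent.WK2 Pool.Agent.WKS

noncomputable section

theorem int : IntStmt := by
  intro φ hφ K C hK
  obtain ⟨S0, hS0, hdua⟩ := dua φ hφ
  refine ⟨|C| * S0 + 1, fun s F hs hF => ?_⟩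
  have hsep := (sep φ hφ).1 F
  choose a ha1 ha2 using hsep
  obtain ⟨f0, hf0⟩ : ∃ f0 : Y, f0 = ∑ x ∈ F, expR x (-s) • a x := ⟨_, rfl⟩
  have hchi : ∀ y ∈ F, chiW φ (y : ℂ) f0 = expR y (-s) := by
    intro y hy
    rw [hf0, map_sum, Finset.sum_eq_single_of_mem y hy]
    · rw [map_smul, ha1 y, smul_eq_mul, mul_one]
    · intro x _ hxy
      rw [map_smul, ha2 x y hy (Ne.symm hxy), smul_zero]
  have h1 : 1 ≤ φ (-s) := hφ.one_le (-s)
  obtain ⟨f1, hf1, hn⟩ := hdua F f0 (|C| * S0 * φ (-s)) (by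
    intro c hc
    have h2 : ∑ x ∈ F, c x * chiW φ (x : ℂ) f0 = ES F c (-s) := by
      unfold ES
      exact Finset.sum_congr rfl fun x hx => by rw [hchi x hx]
    rw [h2]
    refine (hK F c S0 hF hc (-s) (by linarith)).trans ?_
    have h3 : C * S0 ≤ |C| * S0 := mul_le_mul_of_nonneg_right (le_abs_self C) (by linarith)
    exact mul_le_mul_of_nonneg_right h3 (by linarith)) 1 one_pos
  obtain ⟨f, hf, _, hfn, hft⟩ := ofE hφ (f0 - f1)
  refine ⟨f, hf, ?_, fun x hx => ?_⟩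
  · rw [← hfn]
    refine hn.trans ?_
    have h4 : (|C| * S0 + 1) * φ (-s) = |C| * S0 * φ (-s) + φ (-s) := by ring
    rw [h4]
    linarith
  · rw [hft (x : ℂ) (by simp), map_sub, hf1 x hx, sub_zero, hchi x hx]

end

end Pool.Agent.WK3
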