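import Pool.Agent.WK3.Stmts
import Pool.Agent.WK2.Kit

/-!
# MP_7d2497_an, squad WK3: row ISU, separating functions at isolated points
-/

set_option autoImplicit false

namespace Pool.Agent.WK3

open MeasureTheory Filter Topology Complex
open Pool.Agent.H78E Pool.Agent.WK Pool.Agent.WK2
open Pool.Agent.WKS

noncomputable section

theorem isu : IsuStmt := by
  intro φ hφ g K hg _ hK x0 hx0
  obtain ⟨hx0K, δ, hδ, hsep⟩ := hx0
  obtain ⟨l, hl⟩ := exists_functionalW hφ hg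
  have hspec : rc K = (annW hφ l).hull := by
    rw [← hK]
    exact specPos_eqW hφ hg hl
  have hmemK : ∀ x : ℝ, (x : ℂ) ∈ (annW hφ l).hull ↔ x ∈ K := by
    intro x
    rw [← hspec]
    constructor
    · rintro ⟨y, hy, hyx⟩
      have : y = x := Complex.ofReal_injective hyx
      rwa [← this]
    · intro hx
      exact ⟨x, hx, rfl⟩
  have hreal : ∀ z ∈ (annW hφ l).hull, z.im = 0 := by
    intro z hz
    rw [← hspec] at hz
    obtain ⟨x, _, rfl⟩ := hz
    simp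
  have hiso : ∀ x : ℝ, (x : ℂ) ∈ (annW hφ l).hull → |x - x0| < min δ 1 → x = x0 := by
    intro x hx hxd
    by_contra hxx
    have hy : x ∈ K := (hmemK x).mp hx
    have h1 := hsep x hy hxx
    have h2 : |x - x0| < δ := hxd.trans_le (min_le_left _ _)
    linarith
  obtain ⟨ρ, e, hρ, hunit, _, _, heθ⟩ := (annW hφ l).exists_idempotent hφ
    (lt_min hδ zero_lt_one) hreal hiso
  obtain ⟨u, hu⟩ := (annW hφ l).qm_surj (e ((annW hφ l).qm (rw' φ)))
  have key : ∀ y ∈ K, chiW φ (y : ℂ) u = if y = x0 then chiW φ (y : ℂ) (rw' φ) else 0 := by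
    intro y hy
    have h1 : chiW φ (y : ℂ) u = (annW hφ l).ch ((hmemK y).mpr hy) ((annW hφ l).qm u) := rfl
    rw [h1, hu, (annW hφ l).ch_idempotent hφ hρ hunit heθ ((hmemK y).mpr hy)]
    rfl
  have h0 := chiW_rw_ne hφ (w := (x0 : ℂ)) (by simp)
  have hu1 : chiW φ (x0 : ℂ) ((chiW φ (x0 : ℂ) (rw' φ))⁻¹ • u) = 1 := by
    rw [map_smul, key x0 hx0K, if_pos rfl, smul_eq_mul, inv_mul_cancel₀ h0]
  have hu2 : ∀ y ∈ K, y ≠ x0 → chiW φ (y : ℂ) ((chiW φ (x0 : ℂ) (rw' φ))⁻¹ • u) = 0 := by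
    intro y hy hyx
    rw [map_smul, key y hy, if_neg hyx, smul_zero]
  obtain ⟨f, hf1, _, _, hf2⟩ := ofE hφ ((chiW φ (x0 : ℂ) (rw' φ))⁻¹ • u)
  refine ⟨f, hf1, ?_, fun y hy hyx => ?_⟩
  · rw [hf2 _ (by simp), hu1]
  · rw [hf2 _ (by simp), hu2 y hy hyx]

end

end Pool.Agent.WK3
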