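import Pool.Agent.WK3.Stmts
import Pool.Agent.WK.Ext
import Pool.Agent.WK.Cnv
import Pool.Agent.WK.Kit

/-!
# MP_7d2497_an, squad WK3: row LIM
-/

set_option autoImplicit false

namespace Pool.Agent.WK3

open MeasureTheory Filter Topology Complex
open Pool.Agent.H78E Pool.Agent.WK Pool.Agent.WK2

noncomputable section

namespace H7L

variable {φ : ℝ → ℝ}

theorem e2_le {x : ℝ} (hx : 0 ≤ x) : 0 ≤ x ^ 2 / 2 * Real.exp (-x) ∧
    x ^ 2 / 2 * Real.exp (-x) ≤ 1 := by
  have h1 := Real.pow_div_factorial_le_exp x hx 2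
  have h2 : ((Nat.factorial 2 : ℕ) : ℝ) = 2 := by norm_num [Nat.factorial]
  rw [h2] at h1
  refine ⟨by positivity, ?_⟩
  rw [Real.exp_neg, ← div_eq_mul_inv, div_le_one (Real.exp_pos x)]
  exact h1

theorem e3_le {x : ℝ} (hx : 0 ≤ x) : 0 ≤ x ^ 3 / 6 * Real.exp (-x) ∧
    x ^ 3 / 6 * Real.exp (-x) ≤ 1 := by
  have h1 := Real.pow_div_factorial_le_exp x hx 3
  have h2 : ((Nat.factorial 3 : ℕ) : ℝ) = 6 := by norm_num [Nat.factorial]
  rw [h2] at h1
  refine ⟨by positivity, ?_⟩
  rw [Real.exp_neg, ← div_eq_mul_inv, div_le_one (Real.exp_pos x)]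
  exact h1

theorem q_norm_le {l : ℝ} (hl : 1 ≤ l) (t : ℝ) : ‖q l t‖ ≤ l := by
  unfold q
  split_ifs with ht
  · have hx : 0 ≤ l * t := mul_nonneg (by linarith) ht
    have h1 := e3_le hx
    have e : l ^ 4 * t ^ 3 / 6 * Real.exp (-(l * t)) =
        l * ((l * t) ^ 3 / 6 * Real.exp (-(l * t))) := by ring
    rw [Complex.norm_real, e, Real.norm_of_nonneg (mul_nonneg (by linarith) h1.1)]
    calc l * ((l * t) ^ 3 / 6 * Real.exp (-(l * t))) ≤ l * 1 :=
          mul_le_mul_of_nonneg_left h1.2 (by linarith)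
      _ = l := mul_one l
  · rw [norm_zero]
    linarith

theorem q_lip_pos {l : ℝ} (hl : 1 ≤ l) {t t' : ℝ} (ht : 0 ≤ t) (ht' : 0 ≤ t') :
    ‖q l t - q l t'‖ ≤ l ^ 2 * |t - t'| := by
  have hq : ∀ s : ℝ, 0 ≤ s → q l s = ((l ^ 4 * s ^ 3 / 6 * Real.exp (-(l * s)) : ℝ) : ℂ) := by
    intro s hs
    unfold q
    rw [if_pos hs]
  rw [hq t ht, hq t' ht', ← Complex.ofReal_sub, Complex.norm_real]
  have hder : ∀ s ∈ Set.Ici (0 : ℝ), HasDerivWithinAt
      (fun s : ℝ => l ^ 4 * s ^ 3 / 6 * Real.exp (-(l * s)))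
      (l ^ 2 * ((l * s) ^ 2 / 2 * Real.exp (-(l * s)) - (l * s) ^ 3 / 6 * Real.exp (-(l * s))))
      (Set.Ici 0) s := by
    intro s _
    have h1 : HasDerivAt (fun s : ℝ => l ^ 4 * s ^ 3 / 6) (l ^ 4 * (3 * s ^ 2) / 6) s := by
      have := ((hasDerivAt_pow 3 s).const_mul (l ^ 4)).div_const 6
      simpa using this
    have h2 : HasDerivAt (fun s : ℝ => -(l * s)) (-l) s := by
      have := (hasDerivAt_id s).const_mul (-l)
      simpa using this
    have h3 := h1.mul h2.exp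
    refine (h3.congr_deriv ?_).hasDerivWithinAt
    ring
  have hbd : ∀ s ∈ Set.Ici (0 : ℝ), ‖l ^ 2 * ((l * s) ^ 2 / 2 * Real.exp (-(l * s)) -
      (l * s) ^ 3 / 6 * Real.exp (-(l * s)))‖ ≤ l ^ 2 := by
    intro s hs
    have hx : 0 ≤ l * s := mul_nonneg (by linarith) hs
    have h2 := e2_le hx
    have h3 := e3_le hx
    rw [norm_mul, Real.norm_of_nonneg (sq_nonneg l), Real.norm_eq_abs]
    calc l ^ 2 * |(l * s) ^ 2 / 2 * Real.exp (-(l * s)) - (l * s) ^ 3 / 6 * Real.exp (-(l * s))|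
        ≤ l ^ 2 * 1 := by
          apply mul_le_mul_of_nonneg_left _ (sq_nonneg l)
          rw [abs_le]
          constructor
          · linarith [h2.1, h3.2]
          · linarith [h2.2, h3.1]
      _ = l ^ 2 := mul_one _
  have h4 := (convex_Ici (0 : ℝ)).norm_image_sub_le_of_norm_hasDerivWithin_le hder hbd
    (Set.mem_Ici.mpr ht') (Set.mem_Ici.mpr ht)
  rw [Real.norm_eq_abs (t - t')] at h4
  exact h4

theorem q_lip {l : ℝ} (hl : 1 ≤ l) (t t' : ℝ) : ‖q l t - q l t'‖ ≤ l ^ 2 * |t - t'| := by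
  have hl2 : 0 ≤ l ^ 2 := sq_nonneg l
  have hneg : ∀ s : ℝ, s < 0 → q l s = q l 0 := by
    intro s hs
    unfold q
    rw [if_neg (not_le.mpr hs), if_pos le_rfl]
    simp
  rcases le_or_gt 0 t with ht | ht
  · rcases le_or_gt 0 t' with ht' | ht'
    · exact q_lip_pos hl ht ht'
    · rw [hneg t' ht']
      refine (q_lip_pos hl ht le_rfl).trans (mul_le_mul_of_nonneg_left ?_ hl2)
      rw [sub_zero, abs_of_nonneg ht, abs_of_nonneg (by linarith)]
      linarith
  · rcases le_or_gt 0 t' with ht' | ht'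
    · rw [hneg t ht]
      refine (q_lip_pos hl le_rfl ht').trans (mul_le_mul_of_nonneg_left ?_ hl2)
      rw [zero_sub, abs_neg, abs_of_nonneg ht', abs_of_nonpos (by linarith)]
      linarith
    · rw [hneg t ht, hneg t' ht', sub_self, norm_zero]
      positivity

theorem q_cont {l : ℝ} (hl : 1 ≤ l) : Continuous (q l) := by
  have h : LipschitzWith (Real.toNNReal (l ^ 2)) (q l) := by
    apply LipschitzWith.of_dist_le_mul
    intro t t'
    rw [dist_eq_norm, Real.dist_eq, Real.coe_toNNReal _ (sq_nonneg l)]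
    exact q_lip hl t t'
  exact h.continuous

theorem cv_eq (f k : ℝ → ℂ) (t : ℝ) : cv f k t = ∫ u : ℝ, f u * k (t - u) := by
  unfold cv
  rw [← integral_sub_left_eq_self (fun u => f u * k (t - u)) volume t]
  congr 1
  funext s
  rw [sub_sub_cancel]

theorem int_norm_le (hφ : IsWeight φ) {f : ℝ → ℂ} (hf : LP φ f) {A : ℝ}
    (hA : ∫ t : ℝ, φ t * ‖f t‖ ≤ A) : ∫ t : ℝ, ‖f t‖ ≤ A := by
  refine le_trans ?_ hA
  apply integral_mono (LP.integrable hφ hf).norm hf.1.2
  intro t
  have h1 := hφ.one_le t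
  have h2 := norm_nonneg (f t)
  show ‖f t‖ ≤ φ t * ‖f t‖
  nlinarith

theorem cv_bd (hφ : IsWeight φ) {f : ℝ → ℂ} (hf : LP φ f) {A l : ℝ} (hl : 1 ≤ l)
    (hA : ∫ t : ℝ, φ t * ‖f t‖ ≤ A) (t : ℝ) : ‖cv f (q l) t‖ ≤ l * A := by
  have hi := LP.integrable hφ hf
  rw [cv_eq]
  calc ‖∫ u : ℝ, f u * q l (t - u)‖ ≤ ∫ u : ℝ, ‖f u‖ * l := by
        apply norm_integral_le_of_norm_le (hi.norm.mul_const l)
        refine Eventually.of_forall fun u => ?_
        rw [norm_mul]
        exact mul_le_mul_of_nonneg_left (q_norm_le hl _) (norm_nonneg _)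
    _ = l * ∫ u : ℝ, ‖f u‖ := by rw [integral_mul_const, mul_comm]
    _ ≤ l * A := mul_le_mul_of_nonneg_left (int_norm_le hφ hf hA) (by linarith)

theorem cv_lip (hφ : IsWeight φ) {f : ℝ → ℂ} (hf : LP φ f) {A l : ℝ} (hl : 1 ≤ l)
    (hA : ∫ t : ℝ, φ t * ‖f t‖ ≤ A) (t t' : ℝ) :
    ‖cv f (q l) t - cv f (q l) t'‖ ≤ l ^ 2 * A * |t - t'| := by
  have hi := LP.integrable hφ hf
  have hint : ∀ t : ℝ, Integrable (fun u : ℝ => f u * q l (t - u)) := by
    intro t
    refine hi.mul_bdd (c := l) ?_ (Eventually.of_forall fun u => q_norm_le hl _)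
    exact ((q_cont hl).comp (continuous_const.sub continuous_id)).aestronglyMeasurable
  rw [cv_eq, cv_eq, ← integral_sub (hint t) (hint t')]
  calc ‖∫ u : ℝ, (f u * q l (t - u) - f u * q l (t' - u))‖ ≤
      ∫ u : ℝ, ‖f u‖ * (l ^ 2 * |t - t'|) := by
        apply norm_integral_le_of_norm_le (hi.norm.mul_const _)
        refine Eventually.of_forall fun u => ?_
        rw [← mul_sub, norm_mul]
        apply mul_le_mul_of_nonneg_left _ (norm_nonneg _)
        have h1 := q_lip hl (t - u) (t' - u)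
        rwa [sub_sub_sub_cancel_right] at h1
    _ = (∫ u : ℝ, ‖f u‖) * (l ^ 2 * |t - t'|) := by rw [integral_mul_const]
    _ ≤ A * (l ^ 2 * |t - t'|) :=
        mul_le_mul_of_nonneg_right (int_norm_le hφ hf hA) (by positivity)
    _ = _ := by ring

end H7L

theorem lim (hQai : QaiStmt) : LimStmt := by
  intro φ hφ hinf l hl ι U f A hf
  have pos := Pool.Agent.Helper7_WK.weight_pos hφ
  set D : ℝ := ∫ t : ℝ, φ t * ‖q l t‖ with hD
  have hne : (Set.univ : Set ι).Nonempty := by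
    by_contra hcon
    rw [Set.not_nonempty_iff_eq_empty] at hcon
    have h1 : (Set.univ : Set ι) ∈ (U : Filter ι) := univ_mem
    rw [hcon] at h1
    exact U.neBot.ne (empty_mem_iff_bot.mp h1)
  obtain ⟨i0, _⟩ := hne
  have hA0 : 0 ≤ A := (integral_nonneg fun t => mul_nonneg (pos t).le (norm_nonneg _)).trans
    (hf i0).2
  have hD0 : 0 ≤ D := integral_nonneg fun t => mul_nonneg (pos t).le (norm_nonneg _)
  have hl0 : 0 < l := by linarith
  -- the smoothed functions
  have hqLP : LP φ (q l) := by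
    obtain ⟨D', hD'⟩ := (hQai φ hφ).1
    exact (hD' l hl).1
  set k : ι → ℝ → ℂ := fun i => cv (f i) (q l) with hk
  have hkLP : ∀ i, LP φ (k i) := fun i => (cnv φ hφ (f i) (q l) (hf i).1 hqLP).1
  have hkn : ∀ i, ∫ t : ℝ, φ t * ‖k i t‖ ≤ A * D := fun i =>
    ((cnv φ hφ (f i) (q l) (hf i).1 hqLP).2.1).trans (mul_le_mul_of_nonneg_right (hf i).2 hD0)
  have hkF : ∀ i (x : ℝ), FT (k i) (x : ℂ) = FT (f i) (x : ℂ) * FT (q l) (x : ℂ) := fun i x =>
    (cnv φ hφ (f i) (q l) (hf i).1 hqLP).2.2 (x : ℂ) (by simp)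
  have hkb : ∀ i t, ‖k i t‖ ≤ l * A := fun i t => H7L.cv_bd hφ (hf i).1 hl (hf i).2 t
  set Λ : ℝ := l ^ 2 * A with hΛ
  have hΛ0 : 0 ≤ Λ := mul_nonneg (sq_nonneg l) hA0
  have hkl : ∀ i t t', ‖k i t - k i t'‖ ≤ Λ * |t - t'| := fun i t t' =>
    H7L.cv_lip hφ (hf i).1 hl (hf i).2 t t'
  -- the limit
  have hex : ∀ t : ℝ, ∃ z : ℂ, Tendsto (fun i => k i t) U (𝓝 z) := by
    intro t
    have hc : IsCompact (Metric.closedBall (0 : ℂ) (l * A)) := isCompact_closedBall _ _
    have h1 : (((U.map fun i => k i t) : Ultrafilter ℂ) : Filter ℂ) ≤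
        𝓟 (Metric.closedBall (0 : ℂ) (l * A)) := by
      rw [Ultrafilter.coe_map, le_principal_iff]
      refine mem_map.mpr (Eventually.of_forall fun i => ?_)
      show k i t ∈ Metric.closedBall (0 : ℂ) (l * A)
      rw [mem_closedBall_zero_iff]
      exact hkb i t
    obtain ⟨z, _, hz⟩ := hc.ultrafilter_le_nhds _ h1
    refine ⟨z, ?_⟩
    rw [Ultrafilter.coe_map] at hz
    exact hz
  choose h hh using hex
  have hlip : ∀ t t', ‖h t - h t'‖ ≤ Λ * |t - t'| := by
    intro t t'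
    exact le_of_tendsto ((hh t).sub (hh t')).norm (Eventually.of_forall fun i => hkl i t t')
  have hcont : Continuous h := by
    have h1 : LipschitzWith (Real.toNNReal Λ) h := by
      apply LipschitzWith.of_dist_le_mul
      intro t t'
      rw [dist_eq_norm, Real.dist_eq, Real.coe_toNNReal _ hΛ0]
      exact hlip t t'
    exact h1.continuous
  have hneg : ∀ t : ℝ, t < 0 → h t = 0 := by
    intro t ht
    have h1 : (fun i => k i t) = fun _ => 0 := by
      funext i
      exact (hkLP i).2 t ht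
    have h2 := hh t
    rw [h1] at h2
    exact tendsto_nhds_unique h2 tendsto_const_nhds
  -- uniform convergence on compact sets
  have hunif : ∀ (R δ : ℝ), 0 ≤ R → 0 < δ → ∀ᶠ i in (U : Filter ι), ∀ t : ℝ, 0 ≤ t → t ≤ R →
      ‖h t - k i t‖ ≤ (2 * Λ + 1) * δ := by
    intro R δ hR hδ
    set n : ℕ := ⌊R / δ⌋₊ + 1 with hn
    have h1 : ∀ᶠ i in (U : Filter ι), ∀ j ∈ Finset.range n, ‖h (j * δ) - k i (j * δ)‖ ≤ δ := by
      rw [Finset.eventually_all]
      intro j _
      have h2 : Tendsto (fun i => ‖h (j * δ) - k i (j * δ)‖) U (𝓝 0) := by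
        have h3 := (tendsto_const_nhds (x := h (j * δ))).sub (hh (j * δ))
        rw [sub_self] at h3
        have h4 := h3.norm
        rwa [norm_zero] at h4
      exact h2.eventually (Iic_mem_nhds hδ)
    filter_upwards [h1] with i hi t ht htR
    set j : ℕ := ⌊t / δ⌋₊ with hj
    have hjn : j ∈ Finset.range n := by
      rw [Finset.mem_range, hn]
      exact Nat.lt_succ_of_le (Nat.floor_le_floor (div_le_div_of_nonneg_right htR hδ.le))
    have hj1 : (j : ℝ) * δ ≤ t := by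
      have := Nat.floor_le (div_nonneg ht hδ.le)
      rwa [le_div_iff₀ hδ] at this
    have hj2 : t < ((j : ℝ) + 1) * δ := by
      have := Nat.lt_floor_add_one (t / δ)
      rwa [div_lt_iff₀ hδ] at this
    have hjt : |t - j * δ| ≤ δ := by
      rw [abs_of_nonneg (by linarith)]
      nlinarith
    have h5 : ‖h t - h (j * δ)‖ ≤ Λ * δ :=
      (hlip t (j * δ)).trans (mul_le_mul_of_nonneg_left hjt hΛ0)
    have h6 : ‖k i t - k i (j * δ)‖ ≤ Λ * δ :=
      (hkl i t (j * δ)).trans (mul_le_mul_of_nonneg_left hjt hΛ0)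
    have h7 := hi j hjn
    have e : h t - k i t = (h t - h (j * δ)) + (h (j * δ) - k i (j * δ)) -
        (k i t - k i (j * δ)) := by ring
    rw [e]
    calc ‖(h t - h (j * δ)) + (h (j * δ) - k i (j * δ)) - (k i t - k i (j * δ))‖ ≤
        ‖(h t - h (j * δ)) + (h (j * δ) - k i (j * δ))‖ + ‖k i t - k i (j * δ)‖ := norm_sub_le _ _
      _ ≤ (‖h t - h (j * δ)‖ + ‖h (j * δ) - k i (j * δ)‖) + ‖k i t - k i (j * δ)‖ :=
          add_le_add (norm_add_le _ _) le_rfl
      _ ≤ (Λ * δ + δ) + Λ * δ := add_le_add (add_le_add h5 h7) h6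
      _ = _ := by ring
  have hφloc : ∀ R : ℝ, ∃ S : ℝ, 1 ≤ S ∧ ∀ t : ℝ, |t| ≤ R → φ t ≤ S :=
    fun R => Pool.Agent.Helper7_WK.weight_loc hφ R
  have hmeas : Measurable fun t => φ t * ‖h t‖ := hφ.meas.mul hcont.norm.measurable
  have hIOn : ∀ R : ℝ, IntegrableOn (fun t => φ t * ‖h t‖) (Set.Icc (-R) R) := by
    intro R
    obtain ⟨S, hS1, hS⟩ := hφloc R
    obtain ⟨M, hM⟩ := (isCompact_Icc (a := -R) (b := R)).exists_bound_of_continuousOn
      hcont.continuousOn
    refine Measure.integrableOn_of_bounded (M := S * M) (by simp) hmeas.aestronglyMeasurable ?_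
    refine (ae_restrict_iff' measurableSet_Icc).mpr (Eventually.of_forall fun t ht => ?_)
    rw [Real.norm_of_nonneg (mul_nonneg (pos t).le (norm_nonneg _))]
    exact mul_le_mul (hS t (abs_le.mpr ⟨ht.1, ht.2⟩)) (hM t ht) (norm_nonneg _) (by linarith)
  -- the integrals over compact sets
  have hIb : ∀ R : ℝ, 0 ≤ R → ∫ t in Set.Icc (-R) R, φ t * ‖h t‖ ≤ A * D := by
    intro R hR
    obtain ⟨S, hS1, hS⟩ := hφloc R
    apply le_of_forall_pos_le_add
    intro ε hε
    set δ : ℝ := ε / ((2 * Λ + 1) * S * (2 * R + 1)) with hδ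
    have hden : 0 < (2 * Λ + 1) * S * (2 * R + 1) := by positivity
    have hδ0 : 0 < δ := div_pos hε hden
    obtain ⟨i, hi⟩ := (hunif R δ hR hδ0).exists
    have h1 : ∀ t ∈ Set.Icc (-R) R, φ t * ‖h t‖ ≤ φ t * ‖k i t‖ + S * ((2 * Λ + 1) * δ) := by
      intro t ht
      have hSt : φ t ≤ S := hS t (abs_le.mpr ⟨ht.1, ht.2⟩)
      rcases lt_or_ge t 0 with h0 | h0
      · rw [hneg t h0, norm_zero, mul_zero]
        have := mul_nonneg (pos t).le (norm_nonneg (k i t))
        positivity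
      · have h2 := hi t h0 ht.2
        have h3 : ‖h t‖ ≤ ‖k i t‖ + (2 * Λ + 1) * δ := by
          have e : h t = k i t + (h t - k i t) := by ring
          calc ‖h t‖ = ‖k i t + (h t - k i t)‖ := by rw [← e]
            _ ≤ ‖k i t‖ + ‖h t - k i t‖ := norm_add_le _ _
            _ ≤ _ := by linarith
        calc φ t * ‖h t‖ ≤ φ t * (‖k i t‖ + (2 * Λ + 1) * δ) :=
              mul_le_mul_of_nonneg_left h3 (pos t).le
          _ = φ t * ‖k i t‖ + φ t * ((2 * Λ + 1) * δ) := by ring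
          _ ≤ φ t * ‖k i t‖ + S * ((2 * Λ + 1) * δ) := by
              have := mul_le_mul_of_nonneg_right hSt (show 0 ≤ (2 * Λ + 1) * δ by positivity)
              linarith
    have hki : IntegrableOn (fun t => φ t * ‖k i t‖) (Set.Icc (-R) R) := (hkLP i).1.2.integrableOn
    have hcst : IntegrableOn (fun _ : ℝ => S * ((2 * Λ + 1) * δ)) (Set.Icc (-R) R) :=
      continuous_const.integrableOn_Icc
    calc ∫ t in Set.Icc (-R) R, φ t * ‖h t‖ ≤
        ∫ t in Set.Icc (-R) R, (φ t * ‖k i t‖ + S * ((2 * Λ + 1) * δ)) :=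
          setIntegral_mono_on (hIOn R) (hki.add hcst) measurableSet_Icc h1
      _ = (∫ t in Set.Icc (-R) R, φ t * ‖k i t‖) +
          ∫ _ in Set.Icc (-R) R, S * ((2 * Λ + 1) * δ) := integral_add hki hcst
      _ ≤ A * D + ε := by
          apply add_le_add
          · refine (setIntegral_le_integral (hkLP i).1.2 (Eventually.of_forall fun t =>
              mul_nonneg (pos t).le (norm_nonneg _))).trans (hkn i)
          · rw [setIntegral_const, smul_eq_mul, Measure.real, Real.volume_Icc,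
              ENNReal.toReal_ofReal (by linarith)]
            have e : (R - -R) * (S * ((2 * Λ + 1) * δ)) =
                ((2 * Λ + 1) * S * (2 * R)) * δ := by ring
            rw [e]
            calc ((2 * Λ + 1) * S * (2 * R)) * δ ≤ ((2 * Λ + 1) * S * (2 * R + 1)) * δ := by
                  apply mul_le_mul_of_nonneg_right _ hδ0.le
                  apply mul_le_mul_of_nonneg_left _ (by positivity)
                  linarith
              _ = ε := by
                  rw [hδ]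
                  field_simp
  have hcov : AECover (volume : Measure ℝ) atTop fun n : ℕ => Set.Icc (-(n : ℝ)) n :=
    aecover_Icc (tendsto_neg_atTop_atBot.comp tendsto_natCast_atTop_atTop)
      tendsto_natCast_atTop_atTop
  have hInt : Integrable fun t => φ t * ‖h t‖ := by
    apply hcov.integrable_of_integral_norm_bounded (A * D) (fun n => hIOn n)
    refine Eventually.of_forall fun n => ?_
    have e : ∀ t : ℝ, ‖φ t * ‖h t‖‖ = φ t * ‖h t‖ := fun t =>
      Real.norm_of_nonneg (mul_nonneg (pos t).le (norm_nonneg _))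
    simp only [e]
    exact hIb n (Nat.cast_nonneg n)
  have hLPh : LP φ h := ⟨⟨hcont.aestronglyMeasurable, hInt⟩, hneg⟩
  have hIn : ∫ t : ℝ, φ t * ‖h t‖ ≤ A * D :=
    le_of_tendsto (hcov.integral_tendsto_of_countably_generated hInt)
      (Eventually.of_forall fun n => hIb n (Nat.cast_nonneg n))
  refine ⟨h, hLPh, hIn, fun x => ?_⟩
  have e : (fun i => FT (f i) (x : ℂ) * FT (q l) (x : ℂ)) = fun i => FT (k i) (x : ℂ) := by
    funext i
    rw [hkF]
  rw [e, Metric.tendsto_nhds]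
  intro ε hε
  -- the tail
  set N : ℝ := 4 * (A * D + 1) / ε with hN
  have hN0 : 0 < N := by
    have : 0 ≤ A * D := mul_nonneg hA0 hD0
    positivity
  obtain ⟨R0, hR0⟩ := (hinf.eventually (eventually_ge_atTop N)).exists_forall_of_atTop
  set R : ℝ := max R0 0 with hR
  have hR1 : 0 ≤ R := le_max_right _ _
  have hRN : ∀ t : ℝ, R ≤ t → N ≤ φ t := fun t ht => hR0 t ((le_max_left _ _).trans ht)
  set δ : ℝ := ε / (4 * ((2 * Λ + 1) * (R + 1))) with hδ
  have hδ0 : 0 < δ := by positivity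
  filter_upwards [hunif R δ hR1 hδ0] with i hi
  rw [dist_eq_norm, ← norm_neg, neg_sub, ← H7.FT_sub hφ hLPh.1 (hkLP i).1]
  have hdi : Integrable fun t => h t - k i t :=
    (LP.integrable hφ hLPh).sub (LP.integrable hφ (hkLP i))
  have hb1 : ‖FT (fun t => h t - k i t) (x : ℂ)‖ ≤ ∫ t : ℝ, ‖h t - k i t‖ := by
    rw [H7.FT_eq]
    apply norm_integral_le_of_norm_le hdi.norm
    refine Eventually.of_forall fun t => ?_
    rw [norm_mul]
    have : ‖expR x t‖ = 1 := by
      unfold expR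
      rw [Complex.norm_exp]
      simp
    rw [this, mul_one]
  have hsum : Integrable fun t => (Set.Icc 0 R).indicator (fun _ => (2 * Λ + 1) * δ) t +
      N⁻¹ * (φ t * ‖h t‖ + φ t * ‖k i t‖) := by
    apply Integrable.add
    · rw [integrable_indicator_iff measurableSet_Icc]
      exact continuous_const.integrableOn_Icc
    · exact (hInt.add (hkLP i).1.2).const_mul _
  have hb2 : ∫ t : ℝ, ‖h t - k i t‖ ≤ ∫ t : ℝ, ((Set.Icc 0 R).indicator
      (fun _ => (2 * Λ + 1) * δ) t + N⁻¹ * (φ t * ‖h t‖ + φ t * ‖k i t‖)) := by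
    apply integral_mono hdi.norm hsum
    intro t
    simp only
    have hnn : 0 ≤ N⁻¹ * (φ t * ‖h t‖ + φ t * ‖k i t‖) := by
      have h1 := mul_nonneg (pos t).le (norm_nonneg (h t))
      have h2 := mul_nonneg (pos t).le (norm_nonneg (k i t))
      positivity
    have hii : 0 ≤ (Set.Icc 0 R).indicator (fun _ => (2 * Λ + 1) * δ) t :=
      Set.indicator_nonneg (fun _ _ => by positivity) t
    rcases lt_or_ge t 0 with h0 | h0
    · rw [hneg t h0, (hkLP i).2 t h0, sub_self, norm_zero]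
      have := add_nonneg hii (show 0 ≤ N⁻¹ * (φ t * ‖(0:ℂ)‖ + φ t * ‖(0:ℂ)‖) by simp)
      simpa using this
    · rcases le_or_gt t R with h1 | h1
      · rw [Set.indicator_of_mem (show t ∈ Set.Icc 0 R from ⟨h0, h1⟩)]
        have := hi t h0 h1
        linarith
      · have h2 := hRN t h1.le
        have h3 : ‖h t - k i t‖ ≤ ‖h t‖ + ‖k i t‖ := norm_sub_le _ _
        have h4 : ‖h t‖ + ‖k i t‖ ≤ N⁻¹ * (φ t * ‖h t‖ + φ t * ‖k i t‖) := by
          rw [← mul_add, ← mul_assoc]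
          have h5 : 1 ≤ N⁻¹ * φ t := by
            rw [inv_mul_eq_div, le_div_iff₀ hN0, one_mul]
            exact h2
          have h6 : 0 ≤ ‖h t‖ + ‖k i t‖ := by positivity
          nlinarith
        linarith
  have hb3 : ∫ t : ℝ, ((Set.Icc 0 R).indicator (fun _ => (2 * Λ + 1) * δ) t +
      N⁻¹ * (φ t * ‖h t‖ + φ t * ‖k i t‖)) ≤ R * ((2 * Λ + 1) * δ) + N⁻¹ * (A * D + A * D) := by
    rw [integral_add, integral_indicator measurableSet_Icc, setIntegral_const, smul_eq_mul,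
      Measure.real, Real.volume_Icc, ENNReal.toReal_ofReal (by linarith), sub_zero,
      integral_const_mul, integral_add hInt (hkLP i).1.2]
    · apply add_le_add le_rfl
      apply mul_le_mul_of_nonneg_left _ (by positivity)
      exact add_le_add hIn (hkn i)
    · rw [integrable_indicator_iff measurableSet_Icc]
      exact continuous_const.integrableOn_Icc
    · exact (hInt.add (hkLP i).1.2).const_mul _
  have hb4 : R * ((2 * Λ + 1) * δ) ≤ ε / 4 := by
    rw [hδ]
    have h1 : R * ((2 * Λ + 1) * (ε / (4 * ((2 * Λ + 1) * (R + 1))))) = (R / (R + 1)) * (ε / 4) := by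
      field_simp
    rw [h1]
    have h2 : R / (R + 1) ≤ 1 := by
      rw [div_le_one (by linarith)]
      linarith
    nlinarith
  have hb5 : N⁻¹ * (A * D + A * D) ≤ ε / 2 := by
    have hAD : 0 ≤ A * D := mul_nonneg hA0 hD0
    rw [hN, inv_div, div_mul_eq_mul_div, div_le_iff₀ (by positivity)]
    nlinarith
  linarith

end

end Pool.Agent.WK3
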