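import Pool.Agent.WK3.Stmts
import Pool.Agent.WK2.Kit
import Pool.Agent.WK.Nic

/-!
# MP_7d2497_an, squad WK3: row NSP, countable spectra of simple functions are nice
-/

set_option autoImplicit false

namespace Pool.Agent.WK3

open MeasureTheory Filter Topology Complex
open Pool.Agent.H78E Pool.Agent.WK Pool.Agent.WK2
open Pool.Agent.WKS

noncomputable section

namespace Nsp

variable {φ : ℝ → ℝ}

theorem FT_pos {f : ℝ → ℂ} (h0 : ∀ t : ℝ, t < 0 → f t = 0) (z : ℂ) :
    ∫ t : ℝ, f t * expPos z t = FT f z := by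
  unfold FT
  apply integral_congr_ae
  refine Eventually.of_forall fun t => ?_
  by_cases ht : t < 0
  · simp only [h0 t ht, zero_mul]
  · simp only [expPos, if_pos (not_lt.mp ht)]

end Nsp

theorem nsp (spc : SpcStmt) : NspStmt := by
  intro φ hφ g K hg hs hK hne hcount
  obtain ⟨hsp, hcl⟩ := spc φ hφ g hg
  obtain ⟨l, hl⟩ := exists_functionalW hφ hg
  have hspec : rc K = (annW hφ l).hull := by
    rw [← hK]
    exact specPos_eqW hφ hg hl
  have hsimp : ∀ k : Y →L[ℂ] ℂ, (∀ f ∈ (annW hφ l).I, k f = 0) → (∃ z, (annW hφ k).hull = {z}) →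
      ∃ c z : ℂ, z.im ≤ 0 ∧ k = c • chiW φ z := by
    intro k hk hz
    obtain ⟨u, hu, huL⟩ := exists_functionW hφ k
    have huB : u ∈ BPos φ g := (mem_BPos_iffW hφ hg huL hl hu).mpr hk
    obtain ⟨c, z, hz1, hz2⟩ := hs u huB (by
      obtain ⟨z, hz⟩ := hz
      exact ⟨z, by rw [specPos_eqW hφ huL hu, hz]⟩)
    exact ⟨c, z, hz1, repW_smul_exp hu hz1 hz2⟩
  have hne' : (annW hφ l).hull.Nonempty := by
    rw [← hspec]
    exact hne.image _
  have hJ : ∀ f : ℝ → ℂ, LP φ f → (∀ s : ℝ, 0 ≤ s → ∫ t : ℝ, f t * g (t + s) = 0) →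
      JK φ K f := by
    intro f hf hann
    refine ⟨hf, fun x hx => ?_⟩
    have h1 : (x : ℂ) ∈ SpecPos φ g := by
      rw [hK]
      exact ⟨x, hx, rfl⟩
    exact ((hsp (x : ℂ)).mp h1).2 f hf hann
  have hB : ∀ h : ℝ → ℂ, MK φ K h → h ∈ BPos φ g := by
    intro h hh
    rw [bipolarPos φ hφ g h hg hh.1]
    intro f h1 h2 h3
    exact hh.2 f (hJ f ⟨h1, h2⟩ h3)
  refine ⟨?_, hcount, ?_, ?_, ?_⟩
  · have h1 : K = (fun x : ℝ => (x : ℂ)) ⁻¹' (SpecPos φ g) := by
      rw [hK]
      exact (Set.preimage_image_eq K Complex.ofReal_injective).symm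
    rw [h1]
    exact hcl.preimage Complex.continuous_ofReal
  · intro z hz hzK
    by_contra hcon
    push Not at hcon
    apply hzK
    have h1 : z ∈ SpecPos φ g := by
      rw [hsp z]
      exact ⟨hz, fun f hf hann => hcon f (hJ f hf hann)⟩
    rw [hK] at h1
    exact h1
  · intro h hh hne0
    by_contra hcon
    rw [Set.not_nonempty_iff_eq_empty] at hcon
    apply hne0
    obtain ⟨k, hk⟩ := exists_functionalW hφ hh.1
    have hk0 : ∀ f ∈ (annW hφ l).I, k f = 0 := (mem_BPos_iffW hφ hg hh.1 hl hk).mp (hB h hh)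
    have hk1 : k = 0 := by
      refine ne_of_simple hφ hsimp hne' hk0 ?_
      rw [← specPos_eqW hφ hh.1 hk, hcon]
    refine Pool.Agent.WK.H68N.zero_of_ann hφ hh.1 ?_
    intro f hf
    obtain ⟨F, hF, _, _⟩ := toE hφ hf
    have h2 := hk F
    rw [hk1] at h2
    have h3 : (0 : Y →L[ℂ] ℂ) F = 0 := rfl
    rw [h3] at h2
    rw [h2]
    apply integral_congr_ae
    filter_upwards [hF] with t ht
    rw [ht]
  · intro h hh x hx
    obtain ⟨c, z, hz1, hz2⟩ := hs h (hB h hh) ⟨(x : ℂ), hx⟩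
    by_cases hc : c = 0
    · refine ⟨0, ?_⟩
      filter_upwards [hz2] with t ht
      rw [ht, hc]
      ring
    · refine ⟨c, ?_⟩
      have h1 : z ∈ SpecPos φ h := by
        rw [(spc φ hφ h hh.1).1 z]
        refine ⟨hz1, fun f hf hann => ?_⟩
        have h2 := hann 0 le_rfl
        simp only [add_zero] at h2
        have h3 : ∫ t : ℝ, f t * h t = c * FT f z := by
          rw [← Nsp.FT_pos hf.2 z, ← integral_const_mul]
          apply integral_congr_ae
          filter_upwards [hz2] with t ht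
          rw [ht]
          ring
        rw [h3] at h2
        exact (mul_eq_zero.mp h2).resolve_left hc
      rw [hx] at h1
      have h2 : z = (x : ℂ) := h1
      rw [← h2]
      exact hz2

end

end Pool.Agent.WK3
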