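import Pool.Agent.WK3.Defs

/-!
# MP_7d2497_an, squad WK3: statements, with proofs in words

THEOREM. Let `φ` be a weight which is quasi-concave on the half-line or of at least linear growth
there, and let `L` be a set without perfect subset (if `φ` has at least linear growth: any set).
Then `L` has (E) if and only if every `K ⊆ L` which is the spectrum of a simple function satisfies
`Ineq φ K C` for some `C`.
-/

set_option autoImplicit false

namespace Pool.Agent.WK3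

open MeasureTheory Filter Topology Complex
open Pool.Agent.H78E Pool.Agent.WK Pool.Agent.WK2

noncomputable section

/-- DIT. Quasi-concave weights which are not of linear growth.

Proof. `φ (t) / t → 0`: given `ε` there is `t0 > 0` with `φ t0 ≤ ε t0`, and `φ t ≤ C (t/t0) φ t0 ≤
C ε t` for `t ≥ t0`. Let `k = ka L x`, `L > 0`. For almost every `t`,
`cv f k t = ∫ f(t-s) k(s) ds = ∫ f(u) k(t-u) du = ∫ f(u) (k(t-u) - exp(-ixu) k(t)) du`
(`FT f x = 0`), and `|k(t-u) - exp(-ixu) k(t)| = (1/L) |1_[0,L](t-u) - 1_[0,L](t)|` since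
`k(t-u) = (1/L) exp(ixt) exp(-ixu)` on its support. By Fubini
`∫ φ |cv f k| ≤ ∫ |f(u)| N(L,u) du`, `N(L,u) = (1/L) ∫ φ(t) |1_[u,u+L](t) - 1_[0,L](t)| dt`.
For `0 < u ≤ L`: `N = (1/L) (∫_0^u φ + ∫_L^(L+u) φ) ≤ C φ(u) u/L + 2 C u φ(L)/L` (on `[L,2L]`:
`φ(t) ≤ C (t/L) φ(L) ≤ 2 C φ(L)`), which tends to `0` for `L → ∞` and is `≤ (C + 2 C²) φ(u)` as
`u φ(L) ≤ C L φ(u)`. For `u > L`: `N ≤ (1/L)(∫_u^(u+L) φ + ∫_0^L φ) ≤ (2 C + C) φ(u)`. Dominated
convergence (the bound `C' φ(u) |f(u)|`), `L = n + 1 → ∞`. `LP (cv f k)`: CNV of WK. -/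
def DitStmt : Prop := ∀ φ : ℝ → ℝ, IsWeight φ → QC φ → ¬ Lin φ → Dit φ

/-- NSP. Countable spectra of simple functions are nice (uses SPC of WK, `bipolarPos`,
`ne_of_simple` of `Helper67_WKS`).

Proof. `K` is closed (SPC: `SpecPos φ g` is closed). If `f ∈ LP` annihilates all translates of `g`
then `FT f x = 0` for `x ∈ K` (SPC), so `f ∈ J_K`. Hence (n1): `z ∉ rc K = SpecPos φ g`, SPC; and
every `h ∈ M_K` is in `BPos φ g` (`bipolarPos`: `∫ f h = 0` for all these `f`). (n2): `h ≠ 0` in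
`BPos φ g` has a nonempty spectrum: `ne_of_simple`. (n3): `SpecPos φ h = {x}`: by `SimpleSpec φ g`,
`h = c expPos z` a.e., and `z = x` if `c ≠ 0` (as `z ∈ SpecPos φ (c expPos z)`, compare the proof
of NIC / SIM). -/
def NspStmt : Prop := ∀ φ : ℝ → ℝ, IsWeight φ → ∀ (g : ℝ → ℂ) (K : Set ℝ), LInfPos φ g →
  SimpleSpec φ g → SpecPos φ g = rc K → K.Nonempty → K.Countable → Nice φ K

/-- ISU. Separating functions at the isolated points of the spectrum of a simple function: the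
first part of the proof of UXI of WK2 (Riesz idempotent `e_x`, lift of `e_x (qm (rw' φ))`,
`ch_idempotent`), which uses only that `x` is isolated. -/
def IsuStmt : Prop := ∀ φ : ℝ → ℝ, IsWeight φ → ∀ (g : ℝ → ℂ) (K : Set ℝ), LInfPos φ g →
  SimpleSpec φ g → SpecPos φ g = rc K → ∀ x : ℝ, Iso K x →
  ∃ u : ℝ → ℂ, LP φ u ∧ FT u (x : ℂ) = 1 ∧ ∀ y ∈ K, y ≠ x → FT u (y : ℂ) = 0

/-- SYC. Synthesis for countable spectra.

Proof. Let `f ∈ J_K` and suppose `∫ f(t) g(t) dt ≠ 0`. Let `h(s) = ∫ f(t) g(t+s) dt` for `s ≥ 0`,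
`0` for `s < 0`: `h ≠ 0`, `h ∈ BPos φ g` (in terms of functionals: `k = l ∘ convW f`). The spectrum
of `h` is nonempty (`ne_of_simple`), closed, contained in `rc K`, countable, so it has an isolated
point `x` (a nonempty closed countable subset of the line is not perfect:
`exists_perfect_nonempty...` or Baire). Local part (Riesz idempotent of `x` in the quotient by the
annihilator of `h`; `local_part`, or `exists_idempotent` in `Helper67_WKS`): `u ∈ LP` such that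
`h_x(s) = ∫ u(t) h(t+s) dt` is nonzero with spectrum `{x}`. By simplicity `h_x = c expPos x`,
`c ≠ 0`. So with `g'(s) = ∫ u(t) g(t+s) dt`, `|g'| ≤ C φ`: `∫ f(t) g'(t+s) dt = c exp(-ixs)` for
`s ≥ 0` (Fubini). Average over `s` with `ka L x`: `∫ (cv f (ka L x))(t) g'(t) dt =
∫ ka L x s * c exp(-ixs) ds = c` for every `L > 0`; but by `Dit` (`FT f x = 0` as `x ∈ K`) the left
side can be made smaller than `|c|`. -/
def SycStmt : Prop := ∀ φ : ℝ → ℝ, IsWeight φ → Dit φ → ∀ (g : ℝ → ℂ) (K : Set ℝ), LInfPos φ g →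
  SimpleSpec φ g → SpecPos φ g = rc K → K.Nonempty → K.Countable → MK φ K g

/-- INT. Finite interpolation (uses DUA, SEP of WK2; `toE`, `ofE` in WK2/Kit).

Proof. `S0` from DUA. `f0 = ∑_(x ∈ F) exp(isx) a_x`, `a_x` from SEP (`chiW φ x a_x = 1`, `0` at the
other points of `F`). If `‖ES F c t‖ ≤ S0 φ t` for `t ≥ 0` then
`∑ c x chiW φ x f0 = ES F c (-s)`, at most `|C| S0 φ(-s)` by `Ineq` (`expR x (-s) = exp(isx)`).
DUA with `δ = |C| S0 φ(-s)`, `η = 1 ≤ φ(-s)`: `f1`, and `f = f0 - f1` is as required, with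
`B = |C| S0 + 1`. -/
def IntStmt : Prop := ∀ φ : ℝ → ℝ, IsWeight φ → ∀ (K : Set ℝ) (C : ℝ), Ineq φ K C →
  ∃ B : ℝ, ∀ (s : ℝ) (F : Finset ℝ), 0 ≤ s → (F : Set ℝ) ⊆ K →
    ∃ f : ℝ → ℂ, LP φ f ∧ ∫ t : ℝ, φ t * ‖f t‖ ≤ B * φ (-s) ∧
      ∀ x ∈ F, FT f (x : ℂ) = expR x (-s)

/-- LIM. Limits, for weights tending to infinity (helper7). -/
def LimStmt : Prop := ∀ φ : ℝ → ℝ, IsWeight φ → Tendsto φ atTop atTop → ∀ l : ℝ, 1 ≤ l →
  ∀ (ι : Type) (U : Ultrafilter ι) (f : ι → ℝ → ℂ) (A : ℝ),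
    (∀ i, LP φ (f i) ∧ ∫ t : ℝ, φ t * ‖f i t‖ ≤ A) →
    ∃ h : ℝ → ℂ, LP φ h ∧ ∫ t : ℝ, φ t * ‖h t‖ ≤ A * ∫ t : ℝ, φ t * ‖q l t‖ ∧
      ∀ x : ℝ, Tendsto (fun i => FT (f i) (x : ℂ) * FT (q l) (x : ℂ)) U (𝓝 (FT h (x : ℂ)))

/-- EXH. The extension (helper7). -/
def ExhStmt : Prop := ∀ φ : ℝ → ℝ, IsWeight φ → ∀ (K : Set ℝ) (B : ℝ), HasH φ K B →
  ∀ g : ℝ → ℂ, MK φ K g → ∃ G : ℝ → ℂ, XK φ K G ∧ ∀ᵐ t : ℝ, 0 ≤ t → G t = g t

/-- SPI. The spectrum of the extension. As SPE / SpeG of WK for the isolated points `x` of `K`: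
`x ∈ Spec φ G`. The isolated points are dense in `K` (closed, countable: a point `x ∈ K` with a
neighbourhood `(x-ρ,x+ρ)` without isolated points of `K` gives a nonempty perfect countable set),
and `Spec φ G` is closed (`H78E.mem_Spec` or SPX; the transforms are continuous). `Spec φ G ⊆ K`:
SPX, `HasN`. -/
def SpiStmt : Prop := ∀ φ : ℝ → ℝ, IsWeight φ → ∀ K : Set ℝ, IsClosed K → K.Countable →
  (∀ x : ℝ, Iso K x → ∃ u : ℝ → ℂ, LP φ u ∧ FT u (x : ℂ) = 1 ∧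
    ∀ y ∈ K, y ≠ x → FT u (y : ℂ) = 0) → HasN φ K →
  ∀ g G : ℝ → ℂ, MK φ K g → SpecPos φ g = rc K → XK φ K G →
  (∀ᵐ t : ℝ, 0 ≤ t → G t = g t) → Spec φ G = K

end

end Pool.Agent.WK3
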