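import Pool.Agent.WK.Spe
import Pool.Agent.WK3.Stmts
import Pool.Agent.Helper78_E.SpecL
import Mathlib.Topology.MetricSpace.Perfect

/-!
# MP_7d2497_an, squad WK3, row SPI: the spectrum of the extension, isolated points
-/

set_option autoImplicit false

namespace Pool.Agent.WK3

open MeasureTheory Filter Topology Complex
open Pool.Agent.H78E Pool.Agent.WK Pool.Agent.WK2

noncomputable section

namespace H69

open Pool.Agent.WK.H51

theorem uncountable_cantor : Uncountable (ℕ → Bool) := by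
  rw [← Cardinal.aleph0_lt_mk_iff]
  have h : Cardinal.mk (ℕ → Bool) = Cardinal.continuum := by simp
  rw [h]
  exact Cardinal.aleph0_lt_continuum

/-- the isolated points of a closed countable set are dense in it -/
theorem exists_iso {K : Set ℝ} (hcl : IsClosed K) (hco : K.Countable) {x : ℝ} (hx : x ∈ K)
    {ρ : ℝ} (hρ : 0 < ρ) : ∃ y : ℝ, Iso K y ∧ dist y x < ρ := by
  by_contra hcon
  have hC : Preperfect (K ∩ Metric.ball x ρ) := by
    rw [preperfect_iff_nhds]
    intro y hy U hU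
    have h1 : U ∩ Metric.ball x ρ ∈ 𝓝 y := Filter.inter_mem hU (Metric.isOpen_ball.mem_nhds hy.2)
    obtain ⟨ε, hε, hb⟩ := Metric.mem_nhds_iff.1 h1
    by_contra h2
    apply hcon
    refine ⟨y, ⟨hy.1, ε, hε, fun z hz hzy => ?_⟩, Metric.mem_ball.1 hy.2⟩
    by_contra h3
    have h4 : z ∈ Metric.ball y ε := by
      rw [Metric.mem_ball, Real.dist_eq]
      exact not_le.1 h3
    exact h2 ⟨z, ⟨(hb h4).1, hz, (hb h4).2⟩, hzy⟩
  have hne : (closure (K ∩ Metric.ball x ρ)).Nonempty :=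
    ⟨x, subset_closure ⟨hx, Metric.mem_ball_self hρ⟩⟩
  obtain ⟨f, hf, -, hinj⟩ := hC.perfect_closure.exists_nat_bool_injection hne
  have hsub : Set.range f ⊆ K := hf.trans (hcl.closure_subset_iff.2 Set.inter_subset_left)
  have hc1 : (Set.range f).Countable := hco.mono hsub
  have hc2 : Countable (ℕ → Bool) := by
    rw [← Set.countable_univ_iff]
    rw [← Set.image_univ] at hc1
    exact Set.countable_of_injective_of_countable_image hinj.injOn hc1
  exact (not_countable_iff.2 uncountable_cantor) hc2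

/-- the points with a separating function are in the spectrum of the extension -/
theorem point (hNim : NimStmt) (hSpx : SpxStmt) (hVan : VanStmt) (hCon : ConStmt)
    (hFub : FubStmt) (hSpc : SpcStmt) {φ : ℝ → ℝ} (hφ : IsWeight φ) (K : Set ℝ)
    (hcl : IsClosed K) (hco : K.Countable) (x : ℝ) (hx : x ∈ K) (u : ℝ → ℂ) (hu : LP φ u)
    (hu1 : FT u (x : ℂ) = 1) (hu2 : ∀ y ∈ K, y ≠ x → FT u (y : ℂ) = 0)
    (hN : ∀ x : ℝ, x ∉ K → ∃ f : ℝ → ℂ, JK φ K f ∧ FT f (x : ℂ) ≠ 0) (g G : ℝ → ℂ)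
    (hg : MK φ K g) (hS : SpecPos φ g = rc K) (hX : XK φ K G)
    (hGg : ∀ᵐ t : ℝ, 0 ≤ t → G t = g t) : x ∈ Spec φ G := by
  have hXs : ∀ G' : ℝ → ℂ, XK φ K G' → Spec φ G' ⊆ K := (hSpx φ hφ K).1 hN
  obtain ⟨hn, -⟩ := hNim φ hφ K x u g hu hu1 hu2 hg
  set c : ℂ := ∫ t : ℝ, u t * g t with hc
  have hH : ∀ s : ℝ, 0 ≤ s → ∫ t : ℝ, u t * G (t + s) = c * expR x s := by
    intro s hs
    rw [← hn s hs]
    refine integral_congr_ae ?_
    have h1 : ∀ᵐ t : ℝ, 0 ≤ t + s → G (t + s) = g (t + s) :=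
      (quasiMeasurePreserving_add_right volume s).ae hGg
    filter_upwards [h1] with t ht
    rcases lt_or_ge t 0 with h | h
    · simp only [hu.2 t h, zero_mul]
    · simp only [ht (add_nonneg h hs)]
  have hc0 : c ≠ 0 := by
    intro h0
    have hxs : (x : ℂ) ∈ SpecPos φ g := by
      rw [hS]
      exact ⟨x, hx, rfl⟩
    have h2 := (((hSpc φ hφ g hg.1).1 (x : ℂ)).1 hxs).2 u hu fun s hs => by
      rw [hn s hs, h0, zero_mul]
    rw [hu1] at h2
    exact one_ne_zero h2
  obtain ⟨hcont, hbd⟩ := hCon φ hφ u G hu.1 hX.1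
  have hHL : LInf φ (fun s : ℝ => ∫ t : ℝ, u t * G (t + s)) := by
    obtain ⟨C, hC⟩ := hX.1.2
    exact ⟨hcont.aestronglyMeasurable, C * ∫ t : ℝ, φ t * ‖u t‖,
      Eventually.of_forall fun s => hbd C hC s⟩
  set D : ℝ → ℂ := fun s => (∫ t : ℝ, u t * G (t + s)) - c * expR x s with hD
  have hDL : LInf φ D := linf_sub hHL (Pool.Agent.WK.H51.expR_linf hφ x) c
  have hDX : XK φ K D := by
    refine ⟨hDL, fun f hf a => ?_⟩
    have e1 : ∫ t : ℝ, f t * ∫ s : ℝ, u s * G (s + (t + a)) = 0 := by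
      rw [hFub φ hφ f u G hf.1.1 hu.1 hX.1 a]
      have : ∀ s : ℝ, u s * ∫ t : ℝ, f t * G (t + (s + a)) = 0 := fun s => by
        rw [hX.2 f hf (s + a), mul_zero]
      simp only [this, integral_zero]
    have e2 : ∫ t : ℝ, f t * expR x (t + a) = 0 := by
      have : ∀ t : ℝ, f t * expR x (t + a) = expR x a * (f t * expR x t) := fun t => by
        rw [expR_add]
        ring
      simp only [this]
      rw [integral_const_mul]
      have h3 : ∫ t : ℝ, f t * expR x t = 0 := hf.2 x hx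
      rw [h3, mul_zero]
    have i1 : Integrable (fun t : ℝ => f t * ∫ s : ℝ, u s * G (s + (t + a))) :=
      integrable_mul hf.1.1 (LInf.shift72 hφ hHL a)
    have i2 : Integrable (fun t : ℝ => f t * expR x (t + a)) :=
      integrable_mul hf.1.1 (LInf.shift72 hφ (Pool.Agent.WK.H51.expR_linf hφ x) a)
    have e3 : ∀ t : ℝ, f t * D (t + a) =
        f t * (∫ s : ℝ, u s * G (s + (t + a))) - c * (f t * expR x (t + a)) := fun t => by
      simp only [hD]
      ring
    simp only [e3]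
    rw [integral_sub i1 (i2.const_mul c), e1, integral_const_mul, e2, mul_zero, sub_zero]
  have hD0 : D =ᵐ[volume] 0 := by
    refine hVan φ hφ K hcl hco D hDL (Eventually.of_forall fun t ht => ?_) (hXs D hDX)
    simp only [hD]
    rw [hH t ht, sub_self]
  rw [mem_spec hφ hX.1]
  intro f hf hfG
  have k1 : ∫ t : ℝ, f t * ∫ s : ℝ, u s * G (s + (t + 0)) = 0 := by
    rw [hFub φ hφ f u G hf hu.1 hX.1 0]
    have : ∀ s : ℝ, u s * ∫ t : ℝ, f t * G (t + (s + 0)) = 0 := fun s => by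
      rw [hfG (s + 0), mul_zero]
    simp only [this, integral_zero]
  have k2 : ∫ t : ℝ, f t * ∫ s : ℝ, u s * G (s + (t + 0)) = c * ∫ t : ℝ, f t * expR x t := by
    rw [← integral_const_mul]
    refine integral_congr_ae ?_
    filter_upwards [hD0] with t ht
    have h4 : (∫ s : ℝ, u s * G (s + t)) = c * expR x t := by
      have h5 : (∫ s : ℝ, u s * G (s + t)) - c * expR x t = 0 := ht
      exact sub_eq_zero.1 h5
    simp only [add_zero]
    rw [h4]
    ring
  rw [k1] at k2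
  rcases mul_eq_zero.1 k2.symm with h | h
  · exact absurd h hc0
  · exact h

end H69

/-- row SPI -/
theorem spi (hNim : NimStmt) (hSpx : SpxStmt) (hVan : VanStmt) (hCon : ConStmt)
    (hFub : FubStmt) (hSpc : SpcStmt) : SpiStmt := by
  intro φ hφ K hcl hco hU hN g G hg hS hX hGg
  have hXs : ∀ G' : ℝ → ℂ, XK φ K G' → Spec φ G' ⊆ K := (hSpx φ hφ K).1 hN
  refine Set.Subset.antisymm (hXs G hX) fun x hx => ?_
  have hcs : IsClosed (Spec φ G) := isClosed_Spec bipolar hφ hX.1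
  rw [← hcs.closure_eq, Metric.mem_closure_iff]
  intro ρ hρ
  obtain ⟨y, hy, hyx⟩ := H69.exists_iso hcl hco hx hρ
  obtain ⟨u, hu, hu1, hu2⟩ := hU y hy
  refine ⟨y, ?_, by rw [dist_comm]; exact hyx⟩
  exact H69.point hNim hSpx hVan hCon hFub hSpc hφ K hcl hco y hy.1 u hu hu1 hu2 hN g G hg hS hX hGg

end

end Pool.Agent.WK3
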