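import Pool.Agent.WK3.Stmts
import Pool.Agent.WK3.Spi
import Pool.Agent.WK.Av
import Pool.Agent.Helper67_WKS.Syn

/-!
# MP_7d2497_an, squad WK3, row SYC: synthesis for countable spectra
-/

set_option autoImplicit false

namespace Pool.Agent.WK3

open MeasureTheory Filter Topology Complex
open Pool.Agent.H78E Pool.Agent.WK Pool.Agent.WK2 Pool.Agent.WKS

noncomputable section

namespace H69Y

variable {φ : ℝ → ℝ}

theorem chiW_FT {f : ℝ → ℂ} (hf0 : ∀ t, t < 0 → f t = 0) {F : Y}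
    (hF : ((dv φ F : X) : ℝ → ℂ) =ᵐ[volume] f) {z : ℂ} (hz : z.im ≤ 0) :
    chiW φ z F = FT f z := by
  rw [chiW_rep hz]
  unfold FT
  apply integral_congr_ae
  filter_upwards [hF] with t ht
  rw [ht]
  unfold expPos
  by_cases h0 : 0 ≤ t
  · rw [if_pos h0]
  · rw [hf0 t (not_le.mp h0), zero_mul, zero_mul]

theorem convW_assoc (hφ : IsWeight φ) (f g h : Y) :
    convW hφ f (convW hφ g h) = convW hφ (convW hφ f g) h := by
  rw [← sub_eq_zero]
  apply lapuW hφ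
  intro z hz
  rw [map_sub, chiW_conv hφ hz.le, chiW_conv hφ hz.le, chiW_conv hφ hz.le, chiW_conv hφ hz.le]
  ring

theorem convW_norm (hφ : IsWeight φ) {w : ℝ → ℂ} (hw : LP φ w) {W : Y}
    (hW : ((dv φ W : X) : ℝ → ℂ) =ᵐ[volume] w) (u : Y) :
    ‖convW hφ W u‖ ≤ (∫ t : ℝ, φ t * ‖w t‖) * ‖u‖ := by
  have h0 : ∀ t, 0 ≤ φ t := fun t => zero_le_one.trans (hφ.one_le t)
  have h1 : ‖(WS hφ).pi ((dv φ W : X) : ℝ → ℂ)‖ ≤
      ∫ s in Set.Ioi (0 : ℝ), φ s * ‖((dv φ W : X) : ℝ → ℂ) s‖ :=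
    (WS hφ).pi_norm h0 (GI_dv hφ W)
  have h2 : ∫ s in Set.Ioi (0 : ℝ), φ s * ‖((dv φ W : X) : ℝ → ℂ) s‖ ≤
      ∫ t : ℝ, φ t * ‖w t‖ := by
    have h3 : ∫ s in Set.Ioi (0 : ℝ), φ s * ‖((dv φ W : X) : ℝ → ℂ) s‖ =
        ∫ s in Set.Ioi (0 : ℝ), φ s * ‖w s‖ := by
      apply integral_congr_ae
      filter_upwards [ae_restrict_of_ae hW] with t ht
      rw [ht]
    rw [h3]
    exact setIntegral_le_integral hw.1.2
      (Eventually.of_forall fun t => mul_nonneg (h0 t) (norm_nonneg _))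
  exact ((WS hφ).pi ((dv φ W : X) : ℝ → ℂ)).le_of_opNorm_le (h1.trans h2) u

/-- if `l` kills all convolutions with `F` then it kills `F` -/
theorem concl (hφ : IsWeight φ) {l : Y →L[ℂ] ℂ} {F : Y} (hk : ∀ G : Y, l (convW hφ F G) = 0) :
    l F = 0 := by
  have h1 : ∀ s : ℝ, 0 ≤ s → l (YW φ s ((WS hφ).En 1 F)) = 0 := by
    intro s hs
    have h2 : (WS hφ).En 1 F = convW hφ F (rw' φ) := by
      rw [convW_comm hφ]
      unfold convW GSemi.En
      rw [dv_rw hφ]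
      have h3 := (WS hφ).pi_congr (f := fun s : ℝ => Complex.exp (-(1 * (s : ℂ))))
        (g := ((rr : X) : ℝ → ℂ)) (by
          filter_upwards [rr_coe] with t ht h0
          rw [ht]
          unfold expPos
          rw [if_pos h0.le]
          congr 1
          have := Complex.I_mul_I
          linear_combination (-(t : ℂ)) * this)
      rw [h3]
    have h4 : YW φ s (convW hφ F (rw' φ)) = convW hφ F (YW φ s (rw' φ)) := by
      unfold convW
      refine (WS hφ).pi_commute (WS hφ) (YW φ s) (fun t ht x => ?_) _ _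
      rw [WS_T, ← YW_add hφ hs ht, ← YW_add hφ ht hs, add_comm]
    rw [h2, h4]
    exact hk _
  have hc : Continuous fun s : ℝ => l (YW φ (max s 0) F) := l.continuous.comp (YW_continuous hφ F)
  have h5 : ∀ v : ℝ, 0 < v → l (YW φ v F) = 0 := by
    intro v hv
    have h6 := (WS hφ).hasDerivAt_T_En hφ (a := 1) (by simp) 0 F hv
    have h7 := (l.restrictScalars ℝ).hasFDerivAt.comp_hasDerivAt v h6
    have h8 : ((l.restrictScalars ℝ) ∘ fun v : ℝ => Complex.exp (0 * (v : ℂ)) • (WS hφ).T v ((WS hφ).En 1 F)) =ᶠ[𝓝 v]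
        fun _ => (0 : ℂ) := by
      filter_upwards [lt_mem_nhds hv] with r hr
      simp only [Function.comp, zero_mul, Complex.exp_zero, one_smul, WS_T]
      exact h1 r hr.le
    have h9 := (h8.hasDerivAt_iff.mp h7).unique (hasDerivAt_const v (0 : ℂ))
    simp only [zero_mul, Complex.exp_zero, one_smul, zero_add, map_sub, WS_T] at h9
    have h10 : l (YW φ v ((WS hφ).En 1 F)) - l (YW φ v F) = 0 := h9
    rw [h1 v hv.le, zero_sub, neg_eq_zero] at h10
    exact h10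
  have h10 : Tendsto (fun s : ℝ => l (YW φ (max s 0) F)) (𝓝[>] 0) (𝓝 (l (YW φ (max 0 0) F))) :=
    hc.continuousAt.tendsto.mono_left nhdsWithin_le_nhds
  have h11 : Tendsto (fun s : ℝ => l (YW φ (max s 0) F)) (𝓝[>] 0) (𝓝 0) := by
    refine tendsto_const_nhds.congr' ?_
    filter_upwards [self_mem_nhdsWithin] with r hr
    rw [max_eq_left (le_of_lt hr), h5 r hr]
  have h12 := tendsto_nhds_unique h10 h11
  rw [max_self, YW_zero hφ] at h12
  exact h12

end H69Y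

open H69Y in
/-- row SYC -/
theorem syc (hFub : FubStmt) (hSpc : SpcStmt) (hCnv : CnvStmt) : SycStmt := by
  intro φ hφ hD g K hg hs hK hne hco
  refine ⟨hg, fun f hf => ?_⟩
  obtain ⟨l, hl⟩ := exists_functionalW hφ hg
  have hspec := specPos_eqW hφ hg hl
  rw [hK] at hspec
  obtain ⟨F, hF⟩ := toYW hφ hf.1.1 (Eventually.of_forall hf.1.2)
  have hsimp : ∀ k : Y →L[ℂ] ℂ, (∀ f ∈ (annW hφ l).I, k f = 0) → (∃ z, (annW hφ k).hull = {z}) →
      ∃ c z : ℂ, z.im ≤ 0 ∧ k = c • chiW φ z := by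
    intro k hk hz
    obtain ⟨u, hu, huL⟩ := exists_functionW hφ k
    have huB : u ∈ BPos φ g := (mem_BPos_iffW hφ hg huL hl hu).mpr hk
    obtain ⟨c, z, hz1, hz2⟩ := hs u huB (by
      obtain ⟨z, hz⟩ := hz
      exact ⟨z, by rw [specPos_eqW hφ huL hu, hz]⟩)
    exact ⟨c, z, hz1, repW_smul_exp hu hz1 hz2⟩
  have hreal : ∀ z ∈ (annW hφ l).hull, z.im = 0 := by
    intro z hz
    rw [← hspec] at hz
    obtain ⟨x, _, rfl⟩ := hz
    simp
  -- the functional `G ↦ l (F * G)`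
  obtain ⟨k, hk⟩ : ∃ k : Y →L[ℂ] ℂ, ∀ G, k G = l (convW hφ F G) :=
    ⟨l.comp ((WS hφ).pi ((dv φ F : X) : ℝ → ℂ)), fun G => rfl⟩
  have hk0 : ∀ f ∈ (annW hφ l).I, k f = 0 := by
    intro f hf
    rw [hk]
    exact annW_self hφ ((annW hφ l).conv_mem_right hφ F hf)
  have hle : (annW hφ l).I ≤ (annW hφ k).I := annW_le_of hφ hk0
  have hkreal : ∀ z ∈ (annW hφ k).hull, z.im = 0 := fun z hz => hreal z (hullW_mono hle hz)
  have hkz : k = 0 := by
    refine ne_of_simple hφ hsimp (by rw [← hspec]; exact hne.image _) hk0 ?_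
    by_contra hemp
    rw [← Ne, ← Set.nonempty_iff_ne_empty] at hemp
    obtain ⟨hfun, hrep, hLI⟩ := exists_functionW hφ k
    have hcl : IsClosed (annW hφ k).hull := by
      rw [← specPos_eqW hφ hLI hrep]
      exact (hSpc φ hφ hfun hLI).2
    have hcl' : IsClosed {x : ℝ | (x : ℂ) ∈ (annW hφ k).hull} :=
      hcl.preimage Complex.continuous_ofReal
    have hsubK : {x : ℝ | (x : ℂ) ∈ (annW hφ k).hull} ⊆ K := by
      intro x hx
      have h1 : (x : ℂ) ∈ (annW hφ l).hull := hullW_mono hle hx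
      rw [← hspec] at h1
      obtain ⟨y, hy, hyx⟩ := h1
      rwa [Complex.ofReal_injective hyx] at hy
    obtain ⟨z, hz⟩ := hemp
    have hzr : z = ((z.re : ℝ) : ℂ) := by
      apply Complex.ext <;> simp [hkreal z hz]
    obtain ⟨x0, ⟨hx0, δ, hδ, hiso⟩, -⟩ := H69.exists_iso hcl' (hco.mono hsubK)
      (x := z.re) (by rw [hzr] at hz; exact hz) zero_lt_one
    have hx0k : (x0 : ℂ) ∈ (annW hφ k).hull := hx0
    obtain ⟨ρ, e, hρ, hunit, hee, heT, heθ⟩ := (annW hφ k).exists_idempotent hφ hδ hkreal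
      (x0 := x0) (fun x hx hxd => by
        by_contra hxx
        exact absurd hxd (not_lt.2 (hiso x hx hxx)))
    have hhull := local_part hφ hρ hkreal hunit hee heT heθ hx0k
    obtain ⟨c, z', hz', hcz⟩ := hsimp ((kqW hφ k).comp (e.comp (annW hφ k).qm)) (by
      intro f hf
      change kqW hφ k (e ((annW hφ k).qm f)) = 0
      rw [(annW hφ k).qm_eq_zero.mpr (hle hf), map_zero, map_zero]) ⟨_, hhull⟩
    have hc0 : c ≠ 0 := by
      rintro rfl
      rw [zero_smul_fun] at hcz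
      rw [hcz, annW_zero_hull] at hhull
      exact (Set.singleton_ne_empty _) hhull.symm
    have hz'x : z' = (x0 : ℂ) := by
      have h1 := hull_chiW hφ hz' hc0
      rw [← hcz, hhull] at h1
      exact (Set.singleton_eq_singleton_iff.mp h1).symm
    rw [hz'x] at hcz
    obtain ⟨u, hu⟩ := (annW hφ k).qm_surj (e ((annW hφ k).qm (rw' φ)))
    have hrwne : chiW φ (x0 : ℂ) (rw' φ) ≠ 0 := chiW_rw_ne hφ (by simp)
    have hmain : ∀ G : Y, l (convW hφ (convW hφ F G) u) =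
        c * (chiW φ (x0 : ℂ) G * chiW φ (x0 : ℂ) (rw' φ)) := by
      intro G
      have h1 : (annW hφ k).qm (convW hφ G u) = e ((annW hφ k).qm (convW hφ G (rw' φ))) := by
        have h2 : (annW hφ k).qm (convW hφ G u) =
            ((annW hφ k).S hφ).pi ((dv φ G : X) : ℝ → ℂ) ((annW hφ k).qm u) :=
          (annW hφ k).qm_pi hφ _ _
        have h3 : (annW hφ k).qm (convW hφ G (rw' φ)) =
            ((annW hφ k).S hφ).pi ((dv φ G : X) : ℝ → ℂ) ((annW hφ k).qm (rw' φ)) :=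
          (annW hφ k).qm_pi hφ _ _
        rw [h2, h3, hu]
        exact (((annW hφ k).S hφ).pi_commute ((annW hφ k).S hφ) e heT _ _).symm
      have h4 : k (convW hφ G u) = (c • chiW φ (x0 : ℂ)) (convW hφ G (rw' φ)) := by
        rw [← kqW_qm hφ k, h1, ← hcz]
        rfl
      rw [← convW_assoc hφ, ← hk, h4, smul_apply, chiW_conv hφ (by simp), smul_eq_mul]
    -- the bound
    have hbound : ∀ ε : ℝ, 0 < ε → ‖c * chiW φ (x0 : ℂ) (rw' φ)‖ ≤ ε * (‖l‖ * ‖u‖) := by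
      intro ε hε
      have hx0K : x0 ∈ K := hsubK hx0
      obtain ⟨L, hL, hLP, hsm⟩ := hD x0 f hf.1 (hf.2 x0 hx0K) ε hε
      obtain ⟨S, -, hSb⟩ := local_bound hφ L
      have hka : LP φ (ka L x0) := (H60V.ka_LP hφ hL x0 (fun t h0 h1 =>
        hSb t (by rw [abs_of_nonneg h0]; exact h1))).1
      obtain ⟨G, hG⟩ := toYW hφ hka.1 (Eventually.of_forall hka.2)
      obtain ⟨W, hW⟩ := toYW hφ hLP.1 (Eventually.of_forall hLP.2)
      have hWG : convW hφ F G = W := by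
        rw [← sub_eq_zero]
        apply lapuW hφ
        intro z hz
        rw [map_sub, chiW_conv hφ hz.le, chiW_FT hf.1.2 hF hz.le, chiW_FT hka.2 hG hz.le,
          chiW_FT hLP.2 hW hz.le, (hCnv φ hφ f (ka L x0) hf.1 hka).2.2 z hz.le, sub_self]
      have h1 := hmain G
      rw [hWG, chiW_FT hka.2 hG (by simp), H60V.FT_ka hL, one_mul] at h1
      rw [← h1]
      calc ‖l (convW hφ W u)‖ ≤ ‖l‖ * ‖convW hφ W u‖ := l.le_opNorm _
        _ ≤ ‖l‖ * ((∫ t : ℝ, φ t * ‖cv f (ka L x0) t‖) * ‖u‖) :=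
            mul_le_mul_of_nonneg_left (convW_norm hφ hLP hW u) l.opNorm_nonneg
        _ ≤ ‖l‖ * (ε * ‖u‖) := mul_le_mul_of_nonneg_left
            (mul_le_mul_of_nonneg_right hsm.le (norm_nonneg _)) l.opNorm_nonneg
        _ = ε * (‖l‖ * ‖u‖) := by ring
    have hpos : 0 < ‖c * chiW φ (x0 : ℂ) (rw' φ)‖ := norm_pos_iff.2 (mul_ne_zero hc0 hrwne)
    have hM : 0 ≤ ‖l‖ * ‖u‖ := mul_nonneg l.opNorm_nonneg (norm_nonneg _)
    have h1 := hbound (‖c * chiW φ (x0 : ℂ) (rw' φ)‖ / (2 * (‖l‖ * ‖u‖ + 1))) (by positivity)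
    have h2 : ‖c * chiW φ (x0 : ℂ) (rw' φ)‖ / (2 * (‖l‖ * ‖u‖ + 1)) * (‖l‖ * ‖u‖) <
        ‖c * chiW φ (x0 : ℂ) (rw' φ)‖ := by
      rw [div_mul_eq_mul_div, div_lt_iff₀ (by positivity)]
      nlinarith
    linarith
  have h1 : l F = 0 := concl hφ fun G => by rw [← hk, hkz]; rfl
  rw [hl F] at h1
  rw [← h1]
  apply integral_congr_ae
  filter_upwards [hF] with t ht
  rw [ht]

end

end Pool.Agent.WK3
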