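import Pool.Agent.WK3.Exh
import Pool.Agent.WK3.Lim
import Pool.Agent.WK3.Dit
import Pool.Agent.WK3.Nsp
import Pool.Agent.WK3.Isu
import Pool.Agent.WK3.Syc
import Pool.Agent.WK3.Int
import Pool.Agent.WK3.Spi
import Pool.Agent.WK2.Fin2
import Pool.Agent.Results.MP_7d2497_an.AllBoundedWeights

/-!
# MP_7d2497_an, squad WK3: assembly
-/

set_option autoImplicit false

namespace Pool.Agent.WK3

open MeasureTheory Filter Topology Complex
open Pool.Agent.H78E Pool.Agent.WK Pool.Agent.WK2

noncomputable section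

namespace H7F

variable {φ : ℝ → ℝ}

/-- Weights bounded on the half-line, sets without perfect subset. -/
theorem pos_bdd : Pool.Agent.H78E.PosStmt := by
  have hL : LapuStmt := H85.lapu
  have hR : ResidStmt := H13.resid
  have hA : AlgStmt := H85.alg
  have hD : DensStmt := H13.dens
  have hRi : RieszStmt := H92.riesz
  have hBi : BipolarStmt := bipolar
  have hBP : BipolarPosStmt := bipolarPos
  have hLine : LineStmt := Pool.Agent.Helper15_E.line hBi
  have hDu : DualStmt := H61.dual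
  have hUl : UltraStmt := H61.ultra
  have hSp : SpecLStmt := specL hRi hL hR hA hD hBi hLine
  exact pos_dir hRi hL hR hA hD hDu hBP hUl hSp

theorem lin_top (hφ : IsWeight φ) (h : Lin φ) : Tendsto φ atTop atTop := by
  obtain ⟨C, hC⟩ := h
  have pos := Pool.Agent.Helper7_WK.weight_pos hφ
  have hC0 : 0 < C := by
    have h1 := hC 1 zero_le_one
    by_contra hcon
    push Not at hcon
    have := mul_nonpos_of_nonpos_of_nonneg hcon (pos 1).le
    linarith
  refine tendsto_atTop_mono' atTop ?_ (tendsto_id.atTop_div_const hC0)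
  filter_upwards [eventually_ge_atTop 0] with t ht
  rw [div_le_iff₀ hC0, mul_comm]
  exact hC t ht

theorem qc_dich (h : QC φ) :
    Tendsto φ atTop atTop ∨ ∃ C : ℝ, ∀ t : ℝ, 0 ≤ t → φ t ≤ C := by
  obtain ⟨C, hC0, hC⟩ := h
  by_cases hT : Tendsto φ atTop atTop
  · exact Or.inl hT
  · right
    rw [tendsto_atTop] at hT
    push Not at hT
    obtain ⟨M, hM⟩ := hT
    refine ⟨max (C * M) (φ 0), fun t ht => ?_⟩
    rcases eq_or_lt_of_le ht with h0 | h0
    · rw [← h0]
      exact le_max_right _ _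
    · obtain ⟨s, hs1, hs2⟩ := (hM.and_eventually (eventually_ge_atTop t)).exists
      refine le_trans ?_ (le_max_left _ _)
      refine ((hC t s h0 hs2).1).trans ?_
      apply mul_le_mul_of_nonneg_left _ hC0.le
      exact hs1.le

/-- From the inequality to the functions `h`. -/
theorem hasH (hInt : IntStmt) (hLim : LimStmt) (hQai : QaiStmt) (hφ : IsWeight φ)
    (hT : Tendsto φ atTop atTop) {K : Set ℝ} {C : ℝ} (hI : Ineq φ K C) :
    ∃ B : ℝ, HasH φ K B := by
  classical
  have pos := Pool.Agent.Helper7_WK.weight_pos hφ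
  obtain ⟨B0, hB0⟩ := hInt φ hφ K C hI
  obtain ⟨D, hD⟩ := (hQai φ hφ).1
  refine ⟨B0 * D, fun s l hs hl => ?_⟩
  have hex : ∀ F : Finset K, ∃ f : ℝ → ℂ, LP φ f ∧ ∫ t : ℝ, φ t * ‖f t‖ ≤ B0 * φ (-s) ∧
      ∀ x ∈ F.map (Function.Embedding.subtype _), FT f (x : ℂ) = expR x (-s) := by
    intro F
    apply hB0 s _ hs
    intro x hx
    rw [Finset.mem_coe, Finset.mem_map] at hx
    obtain ⟨y, _, rfl⟩ := hx
    exact y.2
  choose f hf1 hf2 hf3 using hex
  obtain ⟨h, h1, h2, h3⟩ := hLim φ hφ hT l hl (Finset K) (Ultrafilter.of atTop) f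
    (B0 * φ (-s)) (fun F => ⟨hf1 F, hf2 F⟩)
  refine ⟨h, h1, ?_, fun x hx => ?_⟩
  · have h4 : 0 ≤ B0 * φ (-s) := (integral_nonneg fun t =>
      mul_nonneg (pos t).le (norm_nonneg _)).trans (hf2 ∅)
    calc ∫ t : ℝ, φ t * ‖h t‖ ≤ B0 * φ (-s) * ∫ t : ℝ, φ t * ‖q l t‖ := h2
      _ ≤ B0 * φ (-s) * D := mul_le_mul_of_nonneg_left (hD l hl).2 h4
      _ = B0 * D * φ (-s) := by ring
  · have h4 : Tendsto (fun F : Finset K => FT (f F) (x : ℂ) * FT (q l) (x : ℂ))
        (Ultrafilter.of atTop : Ultrafilter (Finset K)) (𝓝 (expR x (-s) * FT (q l) (x : ℂ))) := by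
      have h5 : ∀ᶠ F : Finset K in ((Ultrafilter.of atTop : Ultrafilter (Finset K)) :
          Filter (Finset K)), FT (f F) (x : ℂ) * FT (q l) (x : ℂ) =
            expR x (-s) * FT (q l) (x : ℂ) := by
        have h6 : ∀ᶠ F : Finset K in atTop, ({⟨x, hx⟩} : Finset K) ≤ F := eventually_ge_atTop _
        filter_upwards [(Ultrafilter.of_le atTop) h6] with F hF
        have h7 : x ∈ F.map (Function.Embedding.subtype _) := by
          rw [Finset.mem_map]
          exact ⟨⟨x, hx⟩, hF (Finset.mem_singleton_self _), rfl⟩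
        rw [hf3 F x h7]
      exact tendsto_const_nhds.congr' (h5.mono fun F hF => hF.symm)
    exact tendsto_nhds_unique (h3 x) h4

end H7F

/-- The theorem, from the rows. -/
theorem main3_of (hDit : DitStmt) (hNsp : NspStmt) (hIsu : IsuStmt) (hSyc : SycStmt)
    (hInt : IntStmt) (hSpi : SpiStmt) :
    ∀ φ : ℝ → ℝ, IsWeight φ → ∀ L : Set ℝ, (Lin φ ∨ ∀ K ⊆ L, IsClosed K → K.Countable) →
      (PropertyE φ L → ∀ K ⊆ L, IsSpec φ K → ∃ C : ℝ, Ineq φ K C) ∧
      ((QC φ ∨ Lin φ) → (∀ K ⊆ L, IsSpec φ K → ∃ C : ℝ, Ineq φ K C) → PropertyE φ L) := by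
  have hLew : LewStmt := lew
  have hFac : FacStmt := fac cnv hLew
  have hCon : ConStmt := con
  have hFub : FubStmt := fub
  have hNim : NimStmt := nim hFub
  have hSpc : SpcStmt := spc
  have hSum : SumStmt := sum
  have hDisc : DiscStmt := disc hSpc hFac
  have hLim : LimStmt := lim qai
  have hExh : ExhStmt := exh qai wlm hCon hFub
  intro φ hφ L hL
  have hclosed : ∀ (g : ℝ → ℂ) (K : Set ℝ), LInfPos φ g → SpecPos φ g = rc K → IsClosed K := by
    intro g K hg hK
    have h1 := (hSpc φ hφ g hg).2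
    have h2 : K = (fun x : ℝ => (x : ℂ)) ⁻¹' SpecPos φ g := by
      rw [hK]
      ext x
      constructor
      · intro hx
        exact ⟨x, hx, rfl⟩
      · rintro ⟨y, hy, hyx⟩
        have : y = x := Complex.ofReal_injective hyx
        rwa [← this]
    rw [h2]
    exact h1.preimage Complex.continuous_ofReal
  have hcount : ∀ (g : ℝ → ℂ) (K : Set ℝ), K ⊆ L → LInfPos φ g → SimpleSpec φ g →
      SpecPos φ g = rc K → K.Countable := by
    intro g K hKL hg hs hK
    rcases hL with h | h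
    · exact (hSum.2.2.1 K (hDisc φ hφ h g hg hs K hK)).2
    · exact h K hKL (hclosed g K hg hK)
  constructor
  · intro hE K hKL hK
    obtain ⟨hne, g, hg, hs, hgK⟩ := hK
    have hnice : Nice φ K := hNsp φ hφ g K hg hs hgK hne (hcount g K hKL hg hs hgK)
    exact opn spx van φ hφ K hnice (asur sim van φ hφ K hnice L hKL hE)
  · intro hreg hI g hg hne hsimple hsub
    by_cases hbd : ∃ C : ℝ, ∀ t : ℝ, 0 ≤ t → φ t ≤ C
    · -- bounded weights
      rcases hL with h | h
      · exfalso
        obtain ⟨C, hC⟩ := hbd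
        have h1 := H7F.lin_top hφ h
        obtain ⟨t, ht1, ht2⟩ := ((h1.eventually (eventually_gt_atTop C)).and
          (eventually_ge_atTop 0)).exists
        linarith [hC t ht2]
      · exact H7F.pos_bdd φ hφ hbd L h g hg hne hsimple hsub
    · have hT : Tendsto φ atTop atTop := by
        rcases hreg with h | h
        · exact (H7F.qc_dich h).resolve_right hbd
        · exact H7F.lin_top hφ h
      obtain ⟨K, hKdef⟩ : ∃ K : Set ℝ, K = {x : ℝ | (x : ℂ) ∈ SpecPos φ g} := ⟨_, rfl⟩
      have hmem : ∀ x : ℝ, x ∈ K ↔ (x : ℂ) ∈ SpecPos φ g := fun x => by rw [hKdef]; exact Iff.rfl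
      have hspec : SpecPos φ g = rc K := by
        apply Set.Subset.antisymm
        · intro z hz
          obtain ⟨x, _, rfl⟩ := hsub hz
          exact ⟨x, (hmem x).mpr hz, rfl⟩
        · rintro z ⟨x, hx, rfl⟩
          exact (hmem x).mp hx
      have hKL : K ⊆ L := by
        intro x hx
        obtain ⟨y, hy, hyx⟩ := hsub ((hmem x).mp hx)
        have : y = x := Complex.ofReal_injective hyx
        rwa [← this]
      have hcl : IsClosed K := hclosed g K hg hspec
      have hco : K.Countable := hcount g K hKL hg hsimple hspec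
      have hne' : K.Nonempty := by
        obtain ⟨z, hz⟩ := hne
        rw [hspec] at hz
        obtain ⟨x, hx, _⟩ := hz
        exact ⟨x, hx⟩
      obtain ⟨C, hC⟩ := hI K hKL ⟨hne', g, hg, hsimple, hspec⟩
      obtain ⟨B, hB⟩ := H7F.hasH hInt hLim qai hφ hT hC
      have hM : MK φ K g := by
        by_cases hlin : Lin φ
        · exact syn φ hφ g K hg hsimple hspec hne' (hDisc φ hφ hlin g hg hsimple K hspec)
        · have hQC : QC φ := hreg.resolve_right hlin
          exact hSyc φ hφ (hDit φ hφ hQC hlin) g K hg hsimple hspec hne' hco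
      obtain ⟨G, hX, hG⟩ := hExh φ hφ K B hB g hM
      have hnice : Nice φ K := hNsp φ hφ g K hg hsimple hspec hne' hco
      have hN : HasN φ K := by
        intro x hx
        apply hnice.n1 (x : ℂ) (by simp)
        rintro ⟨y, hy, hyx⟩
        have : y = x := Complex.ofReal_injective hyx
        exact hx (this ▸ hy)
      have hs : Spec φ G = K := hSpi φ hφ K hcl hco
        (fun x hx => hIsu φ hφ g K hg hsimple hspec x hx) hN g G hM hspec hX hG
      refine ⟨G, hX.1, hG, ?_⟩
      rw [hs, hspec]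
      rfl

/-- The theorem. -/
theorem main3 : ∀ φ : ℝ → ℝ, IsWeight φ → ∀ L : Set ℝ,
    (Lin φ ∨ ∀ K ⊆ L, IsClosed K → K.Countable) →
      (PropertyE φ L → ∀ K ⊆ L, IsSpec φ K → ∃ C : ℝ, Ineq φ K C) ∧
      ((QC φ ∨ Lin φ) → (∀ K ⊆ L, IsSpec φ K → ∃ C : ℝ, Ineq φ K C) → PropertyE φ L) := by
  have hCon : ConStmt := con
  have hFub : FubStmt := fub
  have hNim : NimStmt := nim hFub
  have hSpc : SpcStmt := spc
  exact main3_of (dit cnv) (nsp hSpc) isu (syc hFub hSpc cnv) int
    (spi hNim spx van hCon hFub hSpc)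

end

end Pool.Agent.WK3
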